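import Pool.Agent.H68.HDA.Base

/-!
# Module Gro: `L_q` is in the class
`L_q(x,w) ≥ κ q ‖w‖² - K/q ≥ κ ‖w‖² - |K|` (`q ≥ 1`). Second differences: with `f(x,v) = L x v 0`, `z = (x, q w)`, `s = (ξ/q, η)`, of norms `≤ 1`,
`f(z + q s) + f(z - q s) - 2 f(z) = ∑_{|j| < q} (q - |j|) (f(z + (j+1) s) + f(z + (j-1) s) - 2 f(z + j s))`, each bracket is at most
`|K| (1 + ‖q w + j η‖²)(‖ξ‖² + ‖η‖²) ≤ |K| (1 + 2 q² ‖w‖² + 2 q²)(‖ξ‖² + ‖η‖²)`. (Induction: if `D_m` bounds the second difference of size `m`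
around all the centres `z + j s` in question, `g(m+1) - g(m) - (g(-m) - g(-m-1))`...; any finite constant `K'` will do, e.g. prove by induction on `m ≤ q` a
bound for the first differences `g(j+m+1) - g(j+m) - (g(j+1) - g(j)) ≤ m B`.)
-/

set_option autoImplicit false

open MeasureTheory Filter
open scoped RealInnerProductSpace

namespace Pool.Agent.H68.HDA

open Pool.Agent.H33.AM (E Tor pr IsPeriodic)
open Pool.Agent.H68.HD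

variable {n : ℕ}

private lemma second_diff {D : ℕ → ℝ} {B : ℝ} {q : ℕ} (h0 : D 0 = 0) (h1 : D 1 ≤ B)
    (h2 : ∀ m, m + 2 ≤ q → D (m + 2) - 2 * D (m + 1) + D m ≤ 2 * B) :
    D q ≤ (q : ℝ) ^ 2 * B := by
  have hd : ∀ m : ℕ, m + 1 ≤ q → D (m + 1) - D m ≤ (2 * (m : ℝ) + 1) * B := by
    intro m
    induction m with
    | zero => intro _; rw [h0]; simpa using h1
    | succ m ih =>
      intro hm
      have h3 := ih (by omega)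
      have h4 := h2 m (by omega)
      have h5 : (2 * ((m + 1 : ℕ) : ℝ) + 1) * B = (2 * (m : ℝ) + 1) * B + 2 * B := by
        push_cast; ring
      rw [h5]
      linarith
  have hm : ∀ m : ℕ, m ≤ q → D m ≤ (m : ℝ) ^ 2 * B := by
    intro m
    induction m with
    | zero => intro _; rw [h0]; simp
    | succ m ih =>
      intro hm
      have h3 := ih (by omega)
      have h4 := hd m (by omega)
      have h5 : ((m + 1 : ℕ) : ℝ) ^ 2 * B = (m : ℝ) ^ 2 * B + (2 * (m : ℝ) + 1) * B := by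
        push_cast; ring
      rw [h5]
      linarith
  exact hm q le_rfl

private lemma norm_sq_le {w η : E n} {t q : ℝ} (hη : ‖η‖ ≤ 1) (ht : |t| ≤ q) :
    ‖w + t • η‖ ^ 2 ≤ 2 * ‖w‖ ^ 2 + 2 * q ^ 2 := by
  have h1 : ‖w + t • η‖ ≤ ‖w‖ + q := by
    calc ‖w + t • η‖ ≤ ‖w‖ + ‖t • η‖ := norm_add_le _ _
      _ ≤ ‖w‖ + q := by
        rw [norm_smul, Real.norm_eq_abs]
        have : |t| * ‖η‖ ≤ q * 1 :=
          mul_le_mul ht hη (norm_nonneg _) ((abs_nonneg t).trans ht)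
        linarith
  have h2 : 0 ≤ ‖w + t • η‖ := norm_nonneg _
  have h3 : 0 ≤ ‖w‖ := norm_nonneg _
  have h4 : 0 ≤ q := (abs_nonneg t).trans ht
  have h5 : ‖w + t • η‖ ^ 2 ≤ (‖w‖ + q) ^ 2 := by gcongr
  nlinarith [sq_nonneg (‖w‖ - q)]

theorem growth_q {L : E n → E n → ℝ → ℝ} {κ K : ℝ} (hL : Growth L κ K) {q : ℕ} (hq : 0 < q) :
    ∃ K' : ℝ, Growth (Lq q L) κ K' := by
  have hq1 : (1 : ℝ) ≤ q := by exact_mod_cast hq
  have hq0 : (0 : ℝ) < q := by linarith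
  have hK0 : 0 ≤ |K| := abs_nonneg K
  have hqq : (1 : ℝ) ≤ q * (1 + 2 * (q : ℝ) ^ 2) := by nlinarith
  refine ⟨q * (1 + 2 * (q : ℝ) ^ 2) * |K|, ?_, ?_, hL.pos, ?_, ?_⟩
  · intro x y v s t hxy _
    show L x ((q : ℝ) • v) 0 / q = L y ((q : ℝ) • v) 0 / q
    rw [hL.per x y ((q : ℝ) • v) 0 0 hxy rfl]
  · show Continuous fun z : E n × E n × ℝ => L z.1 ((q : ℝ) • z.2.1) 0 / q
    have h1 : Continuous fun z : E n × E n × ℝ => ((z.1, (q : ℝ) • z.2.1, (0 : ℝ)) : E n × E n × ℝ) := by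
      fun_prop
    exact (hL.cont.comp h1).div_const _
  · intro x v t
    show κ * ‖v‖ ^ 2 - q * (1 + 2 * (q : ℝ) ^ 2) * |K| ≤ L x ((q : ℝ) • v) 0 / q
    rw [le_div_iff₀ hq0]
    have h1 := hL.lo x ((q : ℝ) • v) 0
    rw [norm_smul, Real.norm_eq_abs, abs_of_pos hq0] at h1
    have h2 : K ≤ |K| := le_abs_self K
    have h3 : 0 ≤ κ * ‖v‖ ^ 2 := mul_nonneg hL.pos.le (sq_nonneg _)
    have h4 : κ * ‖v‖ ^ 2 * q ≤ κ * (q * ‖v‖) ^ 2 := by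
      have : κ * (q * ‖v‖) ^ 2 = κ * ‖v‖ ^ 2 * q * q := by ring
      rw [this]
      nlinarith [mul_nonneg h3 hq0.le]
    have h5 : |K| ≤ q * (1 + 2 * (q : ℝ) ^ 2) * |K| * q := by
      have h6 : (1 : ℝ) ≤ q * (1 + 2 * (q : ℝ) ^ 2) * q := by nlinarith
      nlinarith
    linarith
  · intro x v t ξ η hξ hη
    show L (x + ξ) ((q : ℝ) • (v + η)) 0 / q + L (x - ξ) ((q : ℝ) • (v - η)) 0 / q
      - 2 * (L x ((q : ℝ) • v) 0 / q) ≤ q * (1 + 2 * (q : ℝ) ^ 2) * |K| * (1 + ‖v‖ ^ 2)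
        * (‖ξ‖ ^ 2 + ‖η‖ ^ 2)
    obtain ⟨a, ha⟩ : ∃ a : E n, a = (q : ℝ)⁻¹ • ξ := ⟨_, rfl⟩
    have hqa : (q : ℝ) • a = ξ := by rw [ha, smul_inv_smul₀ hq0.ne']
    have hna : ‖a‖ ≤ ‖ξ‖ := by
      rw [ha, norm_smul, norm_inv, Real.norm_eq_abs, abs_of_pos hq0]
      have h1 : (q : ℝ)⁻¹ ≤ 1 := inv_le_one_of_one_le₀ hq1
      calc (q : ℝ)⁻¹ * ‖ξ‖ ≤ 1 * ‖ξ‖ := by gcongr
        _ = ‖ξ‖ := one_mul _
    obtain ⟨w, hw⟩ : ∃ w : E n, w = (q : ℝ) • v := ⟨_, rfl⟩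
    have hnw : ‖w‖ ^ 2 = (q : ℝ) ^ 2 * ‖v‖ ^ 2 := by
      rw [hw, norm_smul, Real.norm_eq_abs, abs_of_pos hq0]; ring
    set B : ℝ := |K| * (1 + (2 * ‖w‖ ^ 2 + 2 * (q : ℝ) ^ 2)) * (‖ξ‖ ^ 2 + ‖η‖ ^ 2) with hB
    have key : ∀ (y u : E n), ‖u‖ ^ 2 ≤ 2 * ‖w‖ ^ 2 + 2 * (q : ℝ) ^ 2 →
        L (y + a) (u + η) 0 + L (y - a) (u - η) 0 - 2 * L y u 0 ≤ B := by
      intro y u hu
      have h1 := hL.sc y u 0 a η (hna.trans hξ) hη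
      have h2 : ‖a‖ ^ 2 + ‖η‖ ^ 2 ≤ ‖ξ‖ ^ 2 + ‖η‖ ^ 2 := by gcongr
      have h3 : 0 ≤ ‖a‖ ^ 2 + ‖η‖ ^ 2 := by positivity
      have h4 : K * (1 + ‖u‖ ^ 2) * (‖a‖ ^ 2 + ‖η‖ ^ 2)
          ≤ |K| * (1 + ‖u‖ ^ 2) * (‖a‖ ^ 2 + ‖η‖ ^ 2) := by
        gcongr
        exact le_abs_self K
      have h5 : |K| * (1 + ‖u‖ ^ 2) * (‖a‖ ^ 2 + ‖η‖ ^ 2) ≤ B := by
        rw [hB]; gcongr
      linarith
    let D : ℕ → ℝ := fun m => L (x + (m : ℝ) • a) (w + (m : ℝ) • η) 0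
      + L (x - (m : ℝ) • a) (w - (m : ℝ) • η) 0 - 2 * L x w 0
    have hD0 : D 0 = 0 := by
      show L (x + ((0 : ℕ) : ℝ) • a) (w + ((0 : ℕ) : ℝ) • η) 0
        + L (x - ((0 : ℕ) : ℝ) • a) (w - ((0 : ℕ) : ℝ) • η) 0 - 2 * L x w 0 = 0
      rw [Nat.cast_zero, zero_smul, zero_smul, add_zero, add_zero, sub_zero, sub_zero]
      ring
    have hD1 : D 1 ≤ B := by
      show L (x + ((1 : ℕ) : ℝ) • a) (w + ((1 : ℕ) : ℝ) • η) 0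
        + L (x - ((1 : ℕ) : ℝ) • a) (w - ((1 : ℕ) : ℝ) • η) 0 - 2 * L x w 0 ≤ B
      rw [Nat.cast_one, one_smul, one_smul]
      refine key x w ?_
      nlinarith [sq_nonneg ‖w‖, sq_nonneg (q : ℝ)]
    have hD2 : ∀ m : ℕ, m + 2 ≤ q → D (m + 2) - 2 * D (m + 1) + D m ≤ 2 * B := by
      intro m hm
      have hmq : |((m + 1 : ℕ) : ℝ)| ≤ q := by
        rw [abs_of_nonneg (Nat.cast_nonneg _)]
        exact_mod_cast (by omega : m + 1 ≤ q)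
      have k1 := key (x + ((m + 1 : ℕ) : ℝ) • a) (w + ((m + 1 : ℕ) : ℝ) • η) (norm_sq_le hη hmq)
      have hmq' : |(-((m + 1 : ℕ) : ℝ))| ≤ q := by rw [abs_neg]; exact hmq
      have k2 := key (x - ((m + 1 : ℕ) : ℝ) • a) (w - ((m + 1 : ℕ) : ℝ) • η) (by
        have := norm_sq_le (w := w) hη hmq'
        rw [neg_smul, ← sub_eq_add_neg] at this
        exact this)
      have e1 : x + ((m + 1 : ℕ) : ℝ) • a + a = x + ((m + 2 : ℕ) : ℝ) • a := by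
        push_cast; module
      have e2 : w + ((m + 1 : ℕ) : ℝ) • η + η = w + ((m + 2 : ℕ) : ℝ) • η := by
        push_cast; module
      have e3 : x + ((m + 1 : ℕ) : ℝ) • a - a = x + (m : ℝ) • a := by
        push_cast; module
      have e4 : w + ((m + 1 : ℕ) : ℝ) • η - η = w + (m : ℝ) • η := by
        push_cast; module
      have e5 : x - ((m + 1 : ℕ) : ℝ) • a + a = x - (m : ℝ) • a := by
        push_cast; module
      have e6 : w - ((m + 1 : ℕ) : ℝ) • η + η = w - (m : ℝ) • η := by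
        push_cast; module
      have e7 : x - ((m + 1 : ℕ) : ℝ) • a - a = x - ((m + 2 : ℕ) : ℝ) • a := by
        push_cast; module
      have e8 : w - ((m + 1 : ℕ) : ℝ) • η - η = w - ((m + 2 : ℕ) : ℝ) • η := by
        push_cast; module
      rw [e1, e2, e3, e4] at k1
      rw [e5, e6, e7, e8] at k2
      show (L (x + ((m + 2 : ℕ) : ℝ) • a) (w + ((m + 2 : ℕ) : ℝ) • η) 0
          + L (x - ((m + 2 : ℕ) : ℝ) • a) (w - ((m + 2 : ℕ) : ℝ) • η) 0 - 2 * L x w 0)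
        - 2 * (L (x + ((m + 1 : ℕ) : ℝ) • a) (w + ((m + 1 : ℕ) : ℝ) • η) 0
          + L (x - ((m + 1 : ℕ) : ℝ) • a) (w - ((m + 1 : ℕ) : ℝ) • η) 0 - 2 * L x w 0)
        + (L (x + (m : ℝ) • a) (w + (m : ℝ) • η) 0
          + L (x - (m : ℝ) • a) (w - (m : ℝ) • η) 0 - 2 * L x w 0) ≤ 2 * B
      linarith
    have hfin := second_diff (q := q) hD0 hD1 hD2
    have hDq : D q = L (x + ξ) ((q : ℝ) • (v + η)) 0 + L (x - ξ) ((q : ℝ) • (v - η)) 0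
        - 2 * L x ((q : ℝ) • v) 0 := by
      show L (x + (q : ℝ) • a) (w + (q : ℝ) • η) 0
        + L (x - (q : ℝ) • a) (w - (q : ℝ) • η) 0 - 2 * L x w 0 = _
      rw [hqa, hw, smul_add, smul_sub]
    have hsum : L (x + ξ) ((q : ℝ) • (v + η)) 0 / q + L (x - ξ) ((q : ℝ) • (v - η)) 0 / q
        - 2 * (L x ((q : ℝ) • v) 0 / q) = D q / q := by
      rw [hDq]; ring
    rw [hsum, div_le_iff₀ hq0]
    have hBle : B ≤ |K| * ((1 + 2 * (q : ℝ) ^ 2) * (1 + ‖v‖ ^ 2)) * (‖ξ‖ ^ 2 + ‖η‖ ^ 2) := by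
      rw [hB, hnw]
      have h6 : 1 + (2 * ((q : ℝ) ^ 2 * ‖v‖ ^ 2) + 2 * (q : ℝ) ^ 2)
          ≤ (1 + 2 * (q : ℝ) ^ 2) * (1 + ‖v‖ ^ 2) := by nlinarith [sq_nonneg ‖v‖]
      gcongr
    calc D q ≤ (q : ℝ) ^ 2 * B := hfin
      _ ≤ (q : ℝ) ^ 2 * (|K| * ((1 + 2 * (q : ℝ) ^ 2) * (1 + ‖v‖ ^ 2))
          * (‖ξ‖ ^ 2 + ‖η‖ ^ 2)) := by gcongr
      _ = q * (1 + 2 * (q : ℝ) ^ 2) * |K| * (1 + ‖v‖ ^ 2) * (‖ξ‖ ^ 2 + ‖η‖ ^ 2) * q := by ring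

end Pool.Agent.H68.HDA
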