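import Pool.Agent.H68.HDA.Base
import Pool.Agent.H68.HD.AC0

/-!
# Module Res: rescaling of curves
`ac_scale`: from the definition, or by `ac_integral`/`ac_ftc` (see `ac_shift` in HD/AC2). `crv_q`: the integrand of `L_q` along `s ↦ γ (s/q)` is
`(1/q) g (s/q)`, `g t = L (γ t) (deriv γ t) t - ⟪c, deriv γ t⟫ + e` (`deriv (fun s => γ (s/q)) s = (1/q) • deriv γ (s/q)`, valid for all `s`;
`Aut`), `intervalIntegral.integral_comp_div`, `IntervalIntegrable.comp_mul_left`.
-/

set_option autoImplicit false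

open MeasureTheory Filter
open scoped RealInnerProductSpace

namespace Pool.Agent.H68.HDA

open Pool.Agent.H33.AM (E Tor pr IsPeriodic)
open Pool.Agent.H68.HD

variable {n : ℕ}

private theorem ac_mul {γ : ℝ → E n} {a c d : ℝ} (ha : 0 < a) (hc : 0 ≤ c) (hd : c * a = d)
    (h : AbsolutelyContinuousOnInterval γ 0 d) :
    AbsolutelyContinuousOnInterval (fun s => γ (s * a)) 0 c := by
  rw [absolutelyContinuousOnInterval_iff] at h ⊢
  intro ε hε
  obtain ⟨δ, hδ, h2⟩ := h ε hε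
  have hd0 : 0 ≤ d := by rw [← hd]; positivity
  refine ⟨δ / a, by positivity, ?_⟩
  intro E hE hs
  have h3 := h2 (E.1, fun i => ((E.2 i).1 * a, (E.2 i).2 * a)) ?_ ?_
  · exact h3
  · obtain ⟨hm, hdj⟩ := hE
    refine ⟨?_, ?_⟩
    · intro i hi
      have h4 := hm i hi
      rw [Set.uIcc_of_le hc] at h4
      rw [Set.uIcc_of_le hd0, ← hd]
      exact ⟨⟨mul_nonneg h4.1.1 ha.le, mul_le_mul_of_nonneg_right h4.1.2 ha.le⟩,
        ⟨mul_nonneg h4.2.1 ha.le, mul_le_mul_of_nonneg_right h4.2.2 ha.le⟩⟩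
    · intro i hi j hj hij
      have h4 := hdj hi hj hij
      simp only [Function.onFun] at h4 ⊢
      rw [Set.disjoint_left] at h4 ⊢
      have key : ∀ x y z : ℝ, z ∈ Set.uIoc (x * a) (y * a) → z / a ∈ Set.uIoc x y := by
        intro x y z hz
        rw [Set.mem_uIoc] at hz ⊢
        rcases hz with hz | hz
        · left; exact ⟨by rw [lt_div_iff₀ ha]; exact hz.1, by rw [div_le_iff₀ ha]; exact hz.2⟩
        · right; exact ⟨by rw [lt_div_iff₀ ha]; exact hz.1, by rw [div_le_iff₀ ha]; exact hz.2⟩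
      intro z hz hz'
      exact h4 (key _ _ z hz) (key _ _ z hz')
  · simp only
    have h5 : ∑ i ∈ Finset.range E.1, dist ((E.2 i).1 * a) ((E.2 i).2 * a) =
        (∑ i ∈ Finset.range E.1, dist (E.2 i).1 (E.2 i).2) * a := by
      rw [Finset.sum_mul]
      refine Finset.sum_congr rfl fun i _ => ?_
      rw [Real.dist_eq, Real.dist_eq, ← sub_mul, abs_mul, abs_of_pos ha]
    rw [h5]
    rwa [lt_div_iff₀ ha] at hs

private theorem deriv_mul (γ : ℝ → E n) (a s : ℝ) :
    deriv (fun s => γ (s * a)) s = a • deriv γ (s * a) := by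
  have h := deriv_comp_mul_left a γ s
  have h2 : (fun s => γ (s * a)) = (fun s => γ (a * s)) := by
    funext s; rw [mul_comm]
  rw [h2, mul_comm s a]
  exact h

private theorem crv_mul {L L' : E n → E n → ℝ → ℝ} {a : ℝ} (ha : 0 < a)
    (hL : ∀ x w s t, L' x (a • w) s = a * L x w t) {c : E n} {e e' : ℝ} (he : e' = a * e)
    {k k' : ℕ} (hk : (k' : ℝ) * a = k) {γ : ℝ → E n} {r : ℝ} (h : Crv L c e k γ r) :
    Crv L' c e' k' (fun s => γ (s * a)) r := by
  set F : ℝ → ℝ := fun t => L (γ t) (deriv γ t) t - ⟪c, deriv γ t⟫ + e with hF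
  have hG : ∀ s, L' (γ (s * a)) (deriv (fun s => γ (s * a)) s) s -
      ⟪c, deriv (fun s => γ (s * a)) s⟫ + e' = a * F (s * a) := by
    intro s
    rw [deriv_mul, hL _ _ _ (s * a), inner_smul_right, he]
    simp only [hF]
    ring
  have hk2 : (k : ℝ) / a = k' := by rw [← hk]; field_simp
  have hint : IntervalIntegrable (fun s => F (s * a)) volume 0 (k' : ℝ) := by
    have h1 := IntervalIntegrable.comp_mul_right (f := F) (a := 0) (b := (k : ℝ)) h.int (c := a)
    rw [hk2, zero_div] at h1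
    exact h1
  refine ⟨ac_mul ha (Nat.cast_nonneg k') hk h.ac, ?_, ?_⟩
  · exact (hint.const_mul a).congr (fun s _ => (hG s).symm)
  · have h1 : ∫ s in (0 : ℝ)..(k' : ℝ), (L' (γ (s * a)) (deriv (fun s => γ (s * a)) s) s -
      ⟪c, deriv (fun s => γ (s * a)) s⟫ + e') = ∫ s in (0 : ℝ)..(k' : ℝ), a * F (s * a) :=
      intervalIntegral.integral_congr (fun s _ => hG s)
    rw [h1, intervalIntegral.integral_const_mul, intervalIntegral.integral_comp_mul_right F ha.ne',
      smul_eq_mul, ← mul_assoc, mul_inv_cancel₀ ha.ne', one_mul, zero_mul, hk]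
    exact h.eq

theorem ac_scale {γ : ℝ → E n} {a b : ℝ} (ha : 0 < a) (hb : 0 ≤ b)
    (h : AbsolutelyContinuousOnInterval γ 0 b) :
    AbsolutelyContinuousOnInterval (fun s => γ (s / a)) 0 (b * a) := by
  have h1 := ac_mul (a := a⁻¹) (c := b * a) (inv_pos.2 ha) (by positivity)
    (by rw [mul_assoc, mul_inv_cancel₀ ha.ne', mul_one]) h
  simpa only [div_eq_mul_inv] using h1

theorem crv_q {L : E n → E n → ℝ → ℝ} (ha : Aut L) {q : ℕ} (hq : 0 < q) {c : E n} {e : ℝ} {k : ℕ}
    {γ : ℝ → E n} {r : ℝ} (h : Crv L c e k γ r) :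
    Crv (Lq q L) c (e / q) (k * q) (fun s => γ (s / q)) r := by
  have hq' : (0 : ℝ) < q := by exact_mod_cast hq
  have h1 := crv_mul (L' := Lq q L) (a := (q : ℝ)⁻¹) (e' := e / q) (k' := k * q) (inv_pos.2 hq')
    (fun x w s t => by
      simp only [Lq]
      rw [smul_smul, mul_inv_cancel₀ hq'.ne', one_smul, ha x w t]
      ring) (by ring) (by push_cast; rw [mul_assoc, mul_inv_cancel₀ hq'.ne', mul_one]) h
  simpa only [div_eq_mul_inv] using h1

theorem crv_q' {L : E n → E n → ℝ → ℝ} (ha : Aut L) {q : ℕ} (hq : 0 < q) {c : E n} {e : ℝ} {k : ℕ}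
    {γ : ℝ → E n} {r : ℝ} (h : Crv (Lq q L) c (e / q) (k * q) γ r) :
    Crv L c e k (fun t => γ (t * q)) r := by
  have hq' : (0 : ℝ) < q := by exact_mod_cast hq
  exact crv_mul (L := Lq q L) (L' := L) (a := (q : ℝ)) (e := e / q) (e' := e) (k' := k) hq'
    (fun x w s t => by
      simp only [Lq]
      rw [ha x _ s]
      field_simp) (by field_simp) (by push_cast; ring) h

end Pool.Agent.H68.HDA
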