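import Pool.Agent.H68.HDA.Base
import Pool.Agent.H68.HD.AC1
import Pool.Agent.H68.HD.S3
import Pool.Agent.H68.HDA.Res
import Pool.Agent.H68.HDA.Gro

/-!
# Module Alp: the alpha function of `L_q`
`loopMeans (Lq q L) c = (fun a => a / q) '' loopMeans L c`: `⊇` by `crv_q` (with `e = 0`); `⊆`: repeat a loop of length `k` of `L_q` `q` times
(`crv_cat` by induction, the displacement is an integer vector by `pr_eq_pr`), length `k q`, `crv_q'`. Then `sInf` of the image (`hL`: bounded below,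
`loopMeans_bdd`, nonempty). `loopMeans` has the integrand without `+ e`: use `e = 0` in `Crv` (`add_zero`).
-/

set_option autoImplicit false

open MeasureTheory Filter
open scoped RealInnerProductSpace Pointwise

namespace Pool.Agent.H68.HDA

open Pool.Agent.H33.AM (E Tor pr IsPeriodic)
open Pool.Agent.H68.HD

variable {n : ℕ}

private theorem mem_loop {L : E n → E n → ℝ → ℝ} {c : E n} {k : ℕ} {γ : ℝ → E n} {r : ℝ}
    (hk : 0 < k) (h : Crv L c 0 k γ r) (hp : pr (γ 0) = pr (γ k)) : r / k ∈ loopMeans L c := by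
  refine ⟨k, γ, hk, h.ac, hp, ?_, ?_⟩
  · simpa only [add_zero] using h.int
  · rw [h.eq]
    simp only [add_zero]

private theorem loop_crv {L : E n → E n → ℝ → ℝ} {c : E n} {a : ℝ} (ha : a ∈ loopMeans L c) :
    ∃ (k : ℕ) (γ : ℝ → E n) (r : ℝ), 0 < k ∧ Crv L c 0 k γ r ∧ pr (γ 0) = pr (γ k) ∧
      a = r / k := by
  obtain ⟨k, γ, hk, hac, hp, hint, rfl⟩ := ha
  exact ⟨k, γ, _, hk, ⟨hac, by simpa only [add_zero] using hint, by simp only [add_zero]⟩, hp, rfl⟩

private theorem crv_rep {L : E n → E n → ℝ → ℝ} (hper : IsPeriodic L) {c : E n} {k : ℕ}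
    {γ : ℝ → E n} {r : ℝ} (h : Crv L c 0 k γ r) (z : Fin n → ℤ) (hz : γ k = γ 0 + zv z) (m : ℕ) :
    ∃ (ε : ℝ → E n) (w : Fin n → ℤ), Crv L c 0 (k * (m + 1)) ε ((m + 1 : ℕ) * r) ∧
      ε 0 = γ 0 ∧ ε ((k * (m + 1) : ℕ) : ℝ) = γ 0 + zv w := by
  induction m with
  | zero =>
    refine ⟨γ, z, ?_, rfl, ?_⟩
    · simpa using h
    · simpa using hz
  | succ m ih =>
    obtain ⟨ε, w, h1, h2, h3⟩ := ih
    obtain ⟨ε', h4, h5, h6⟩ := crv_cat hper h1 h w h3
    have e1 : k * (m + 1) + k = k * (m + 1 + 1) := by ring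
    rw [e1] at h4 h6
    refine ⟨ε', z + w, ?_, h5.trans h2, ?_⟩
    · have e2 : ((m + 1 : ℕ) : ℝ) * r + r = ((m + 1 + 1 : ℕ) : ℝ) * r := by push_cast; ring
      rw [← e2]
      exact h4
    · rw [h6, hz, zv_add, add_assoc]

theorem alpha_q {L : E n → E n → ℝ → ℝ} {κ K : ℝ} (hL : Growth L κ K) (ha : Aut L) {q : ℕ}
    (hq : 0 < q) (c : E n) : alpha (Lq q L) c = alpha L c / q := by
  have hq' : (q : ℝ) ≠ 0 := Nat.cast_ne_zero.2 hq.ne'
  have hset : loopMeans (Lq q L) c = (q : ℝ)⁻¹ • loopMeans L c := by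
    ext b
    rw [Set.mem_smul_set]
    constructor
    · intro hb
      obtain ⟨k, γ, r, hk, hc, hp, rfl⟩ := loop_crv hb
      obtain ⟨z, hz⟩ := pr_eq_pr.1 hp
      obtain ⟨K', hK'⟩ := growth_q hL hq
      obtain ⟨ε, w, h1, h2, h3⟩ := crv_rep hK'.per hc z hz (q - 1)
      have e1 : q - 1 + 1 = q := by omega
      rw [e1] at h1 h3
      have h4 : Crv L c 0 k (fun t => ε (t * q)) (q * r) := by
        refine crv_q' ha hq ?_
        rw [zero_div]
        exact h1
      refine ⟨(q * r) / k, mem_loop hk h4 (pr_eq_pr.2 ⟨w, ?_⟩), ?_⟩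
      · have e2 : (k : ℝ) * q = ((k * q : ℕ) : ℝ) := by push_cast; ring
        show ε ((k : ℝ) * q) = ε (0 * q) + zv w
        rw [zero_mul, e2, h3, h2]
      · have hk' : (k : ℝ) ≠ 0 := Nat.cast_ne_zero.2 hk.ne'
        show (q : ℝ)⁻¹ * (q * r / k) = r / k
        field_simp
    · rintro ⟨a, ha', rfl⟩
      obtain ⟨k, γ, r, hk, hc, hp, rfl⟩ := loop_crv ha'
      have h1 := crv_q ha hq hc
      rw [zero_div] at h1
      have e1 : (q : ℝ)⁻¹ • (r / (k : ℝ)) = r / ((k * q : ℕ) : ℝ) := by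
        rw [smul_eq_mul]
        push_cast
        field_simp
      rw [e1]
      refine mem_loop (Nat.mul_pos hk hq) h1 ?_
      show pr (γ (0 / (q : ℝ))) = pr (γ (((k * q : ℕ) : ℝ) / (q : ℝ)))
      have e2 : ((k * q : ℕ) : ℝ) / (q : ℝ) = k := by
        push_cast
        field_simp
      rw [zero_div, e2]
      exact hp
  unfold alpha
  rw [hset, Real.sInf_smul_of_nonneg (by positivity), smul_eq_mul]
  ring

end Pool.Agent.H68.HDA
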