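import Pool.Agent.H68.HDA.Base
import Pool.Agent.H68.HD.AC1
import Pool.Agent.H68.HD.AC2
import Pool.Agent.H68.HD.S1
import Pool.Agent.H68.HDA.Res
import Pool.Agent.H68.HDA.Gro

/-!
# Module Auq: Aubry points of the time unit `1/q` are Aubry points
For `ε > 0` take a closed chain at `x` for `Sp (Lq q L) c (e/q)` of length `k`, displacement `z`, cost `≤ ε/(2q)`, repeat it `q` times (or repeat the curve),
curves almost optimal (`acts_nonempty`, `exists_lt_of_csInf_lt`), `crv_chain`: a curve of `L_q` on `[0, k q]` from `x` to `x + q z` with action `≤ ε`; `crv_q'`; cut it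
(`crv_cut`) into `k` curves of time one, `csInf_le` (`acts_ge`: bounded below). Holds for every constant `e`.
-/

set_option autoImplicit false

open MeasureTheory Filter
open scoped RealInnerProductSpace

namespace Pool.Agent.H68.HDA

open Pool.Agent.H33.AM (E Tor pr IsPeriodic)
open Pool.Agent.H68.HD

variable {n : ℕ}

private theorem Auq_rep {L : E n → E n → ℝ → ℝ} (hper : IsPeriodic L) {c : E n} {e : ℝ} {k : ℕ}
    {γ : ℝ → E n} {r : ℝ} {x : E n} {z : Fin n → ℤ} (h : Crv L c e k γ r) (h0 : γ 0 = x)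
    (h1 : γ k = x + zv z) (m : ℕ) :
    ∃ G : ℝ → E n, Crv L c e (k * (m + 1)) G (((m + 1 : ℕ) : ℝ) * r) ∧ G 0 = x ∧
      G ((k * (m + 1) : ℕ) : ℝ) = x + zv (((m + 1 : ℕ) : ℤ) • z) := by
  induction m with
  | zero =>
    refine ⟨γ, ?_, h0, ?_⟩
    · simpa using h
    · simpa using h1
  | succ m ih =>
    obtain ⟨G, hG, hG0, hG1⟩ := ih
    obtain ⟨F, hF, hF0, hF1⟩ := crv_cat hper hG h (((m + 1 : ℕ) : ℤ) • z) (by rw [hG1, h0])
    have e1 : k * (m + 1) + k = k * (m + 1 + 1) := by ring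
    have e2 : ((m + 1 : ℕ) : ℝ) * r + r = ((m + 1 + 1 : ℕ) : ℝ) * r := by
      push_cast
      ring
    rw [e1, e2] at hF
    rw [e1] at hF1
    refine ⟨F, hF, by rw [hF0, hG0], ?_⟩
    rw [hF1, h1, add_assoc, ← zv_add]
    congr 2
    rw [Nat.cast_succ (m + 1), add_smul, one_smul, add_comm]

theorem aub_q {L : E n → E n → ℝ → ℝ} {κ K : ℝ} (hL : Growth L κ K) (ha : Aut L) {q : ℕ}
    (hq : 0 < q) (c : E n) (e : ℝ) {x : E n} (hx : Aub (Sp (Lq q L) c (e / q)) x) :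
    Aub (Sp L c e) x := by
  obtain ⟨K', hG⟩ := growth_q hL hq
  intro ε hε
  have hq' : (0 : ℝ) < q := Nat.cast_pos.2 hq
  obtain ⟨f, k, z, hcl, hf0, hcost⟩ := hx (ε / (2 * q)) (by positivity)
  have hk : 0 < k := hcl.1
  have hk' : (0 : ℝ) < k := Nat.cast_pos.2 hk
  have hpos : 0 < ε / (2 * q * k) := by positivity
  have hch : ∀ i : ℕ, ∃ (γ : ℝ → E n) (r : ℝ), Crv (Lq q L) c (e / q) 1 γ r ∧ γ 0 = f i ∧
      γ 1 = f (i + 1) ∧ r ≤ Sp (Lq q L) c (e / q) (f i) (f (i + 1)) + ε / (2 * q * k) := by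
    intro i
    have h2 : sInf (acts (Lq q L) c (e / q) (f i) (f (i + 1))) <
        Sp (Lq q L) c (e / q) (f i) (f (i + 1)) + ε / (2 * q * k) := by
      unfold Sp
      linarith
    obtain ⟨r, ⟨γ, hγ, h0, h1⟩, hr⟩ :=
      exists_lt_of_csInf_lt (acts_nonempty hG c (e / q) (f i) (f (i + 1))) h2
    exact ⟨γ, r, hγ, h0, h1, hr.le⟩
  choose γ r hγ h0 h1 hr using hch
  obtain ⟨Γ, hΓ, hΓ0, hΓ1⟩ := crv_chain hG.per k f γ r (fun i _ => hγ i) (fun i _ => h0 i)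
    (fun i _ => h1 i)
  have hR : ∑ i ∈ Finset.range k, r i ≤ ε / q := by
    calc ∑ i ∈ Finset.range k, r i
        ≤ ∑ i ∈ Finset.range k,
          (Sp (Lq q L) c (e / q) (f i) (f (i + 1)) + ε / (2 * q * k)) :=
          Finset.sum_le_sum fun i _ => hr i
      _ = cost (Sp (Lq q L) c (e / q)) f k + k * (ε / (2 * q * k)) := by
          rw [Finset.sum_add_distrib, Finset.sum_const, Finset.card_range, nsmul_eq_mul]
          rfl
      _ ≤ ε / (2 * q) + ε / (2 * q) := by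
          refine add_le_add hcost (le_of_eq ?_)
          field_simp
      _ = ε / q := by
          field_simp
          ring
  obtain ⟨m, rfl⟩ : ∃ m, q = m + 1 := ⟨q - 1, by omega⟩
  obtain ⟨G, hGc, hG0, hG1⟩ := Auq_rep hG.per hΓ (x := x) (z := z) (by rw [hΓ0, hf0])
    (by rw [hΓ1, hcl.2, hf0]) m
  have hC := crv_q' ha hq hGc
  obtain ⟨δ, s, hδ, hs⟩ := crv_cut hL.per hC
  refine ⟨fun i => G ((i : ℝ) * ((m + 1 : ℕ) : ℝ)), k, ((m + 1 : ℕ) : ℤ) • z, ⟨hk, ?_⟩, ?_, ?_⟩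
  · show G ((k : ℝ) * ((m + 1 : ℕ) : ℝ)) = G (((0 : ℕ) : ℝ) * ((m + 1 : ℕ) : ℝ)) + _
    rw [Nat.cast_zero, zero_mul, hG0, ← Nat.cast_mul, hG1]
  · show G (((0 : ℕ) : ℝ) * ((m + 1 : ℕ) : ℝ)) = x
    rw [Nat.cast_zero, zero_mul, hG0]
  · have h5 : cost (Sp L c e) (fun i => G ((i : ℝ) * ((m + 1 : ℕ) : ℝ))) k ≤
        ∑ i ∈ Finset.range k, s i := by
      refine Finset.sum_le_sum fun i hi => ?_
      obtain ⟨h6, h7, h8⟩ := hδ i (Finset.mem_range.1 hi)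
      refine csInf_le ⟨_, fun r hr => acts_ge hL c e _ _ hr⟩ ⟨δ i, h6, h7, ?_⟩
      rw [h8]
    refine h5.trans ?_
    rw [← hs]
    calc ((m + 1 : ℕ) : ℝ) * ∑ i ∈ Finset.range k, r i
        ≤ ((m + 1 : ℕ) : ℝ) * (ε / ((m + 1 : ℕ) : ℝ)) := mul_le_mul_of_nonneg_left hR hq'.le
      _ = ε := mul_div_cancel₀ _ hq'.ne'

end Pool.Agent.H68.HDA
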