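import Pool.Agent.H68.HD.Base

/-!
# Autonomous Lagrangians in the time unit `1/q`: definitions of the project HDA
-/

set_option autoImplicit false

open MeasureTheory Filter
open scoped RealInnerProductSpace

namespace Pool.Agent.H68.HDA

open Pool.Agent.H33.AM (E Tor pr IsPeriodic)
open Pool.Agent.H68.HD

variable {n : ℕ}

/-- `L` does not depend on the time. -/
def Aut (L : E n → E n → ℝ → ℝ) : Prop := ∀ x v t, L x v t = L x v 0

/-- The Lagrangian in the time unit `1/q`: `L_q(x, w) = L(x, q w)/q`. -/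
noncomputable def Lq (q : ℕ) (L : E n → E n → ℝ → ℝ) : E n → E n → ℝ → ℝ :=
  fun x w _ => L x ((q : ℝ) • w) 0 / q

/-- `u` is a periodic subsolution of `S`, and `y` is a calibrated chain. -/
structure Cal (S : E n → E n → ℝ) (u : E n → ℝ) (y : ℕ → E n) : Prop where
  per : ∀ x z, u (x + zv z) = u x
  sub : ∀ x w, u w - u x ≤ S x w
  cal : ∀ i, S (y i) (y (i + 1)) = u (y (i + 1)) - u (y i)

end Pool.Agent.H68.HDA
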