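import Pool.Agent.H68.HDA.Base
import Pool.Agent.H68.HD.S1
import Pool.Agent.H68.HDA.Gro

/-!
# Module Sho: short displacements, uniformly in `q`
`step_ub`: segment; the integrand of `L_q` is `(1/q)(L(·, v, 0) - ⟪c, v⟫ + e)` with `v = q (y - x)`, `‖v‖ ≤ 1`, and `L` is bounded on `E × closedBall 0 1 × {0}` (continuity,
periodicity; see HD/S1). `short_ub`: `m = ⌊q ‖y - x‖⌋₊ + 1`, `f i = x + (i/m) (y - x)`, `q ‖f (i+1) - f i‖ ≤ 1`, `m ≤ q ‖y - x‖ + 1`.
`Sq_lb`: the integrand of `L_q` is `≥ (κ/2) q ‖w‖² - K₁/q`; `crv_jensen`. (`Sp` is an infimum: `le_csInf`, `acts_nonempty` for `L_q`.)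
-/

set_option autoImplicit false

open MeasureTheory Filter
open scoped RealInnerProductSpace

namespace Pool.Agent.H68.HDA

open Pool.Agent.H33.AM (E Tor pr IsPeriodic)
open Pool.Agent.H68.HD

variable {n : ℕ}

private theorem sho_seg_deriv (x y : E n) (t : ℝ) :
    deriv (fun t : ℝ => x + t • (y - x)) t = y - x := by
  have h : HasDerivAt (fun t : ℝ => x + t • (y - x)) ((1 : ℝ) • (y - x)) t :=
    ((hasDerivAt_id t).smul_const (y - x)).const_add x
  rw [h.deriv, one_smul]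

private theorem sho_seg_ac (x y : E n) (a b : ℝ) :
    AbsolutelyContinuousOnInterval (fun t : ℝ => x + t • (y - x)) a b := by
  have h : LipschitzWith ‖y - x‖₊ (fun t : ℝ => x + t • (y - x)) := by
    apply LipschitzWith.of_dist_le_mul
    intro s t
    rw [dist_eq_norm, dist_eq_norm]
    have h1 : x + s • (y - x) - (x + t • (y - x)) = (s - t) • (y - x) := by
      rw [sub_smul]; abel
    rw [h1, norm_smul, coe_nnnorm, mul_comm]
  exact (h.lipschitzOnWith (s := Set.uIcc a b)).absolutelyContinuousOnInterval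

private theorem sho_seg_cont {L : E n → E n → ℝ → ℝ} {κ K : ℝ} (hL : Growth L κ K) (c : E n)
    (e : ℝ) (x y : E n) :
    Continuous fun t : ℝ => L (x + t • (y - x)) (y - x) t - ⟪c, y - x⟫ + e := by
  have h1 : Continuous fun t : ℝ => ((x + t • (y - x), y - x, t) : E n × E n × ℝ) := by
    fun_prop
  have h2 := hL.cont.comp h1
  exact (h2.sub continuous_const).add continuous_const

private theorem sho_seg_mem {L : E n → E n → ℝ → ℝ} {κ K : ℝ} (hL : Growth L κ K) (c : E n)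
    (e : ℝ) (x y : E n) :
    (∫ t in (0 : ℝ)..1, (L (x + t • (y - x)) (y - x) t - ⟪c, y - x⟫ + e)) ∈ acts L c e x y := by
  refine ⟨fun t : ℝ => x + t • (y - x), ⟨sho_seg_ac x y _ _, ?_, ?_⟩, by simp, by simp⟩
  · simp only [sho_seg_deriv]
    exact (sho_seg_cont hL c e x y).intervalIntegrable _ _
  · simp only [sho_seg_deriv, Nat.cast_one]

private theorem sho_step {L : E n → E n → ℝ → ℝ} {κ K : ℝ} (hL : Growth L κ K) (c : E n)
    (e : ℝ) : ∃ C : ℝ, 0 ≤ C ∧ ∀ q : ℕ, 0 < q → ∀ x y : E n, (q : ℝ) * ‖y - x‖ ≤ 1 →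
      Sp (Lq q L) c (e / q) x y ≤ C / q := by
  have hcpt : IsCompact (Metric.closedBall (0 : E n) (Real.sqrt n) ×ˢ
      (Metric.closedBall (0 : E n) 1 ×ˢ Set.Icc (0 : ℝ) 1)) :=
    (isCompact_closedBall _ _).prod ((isCompact_closedBall _ _).prod isCompact_Icc)
  obtain ⟨M, hM⟩ := hcpt.bddAbove_image hL.cont.continuousOn
  refine ⟨|M| + ‖c‖ + |e|, by positivity, fun q hq x y hxy => ?_⟩
  obtain ⟨K', hK'⟩ := growth_q hL hq
  have hq0 : (0 : ℝ) < q := Nat.cast_pos.2 hq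
  have hbdd : BddBelow (acts (Lq q L) c (e / q) x y) :=
    ⟨_, fun _ hr => acts_ge hK' c (e / q) x y hr⟩
  refine (csInf_le hbdd (sho_seg_mem hK' c (e / q) x y)).trans ?_
  have h1 : ∀ t ∈ Set.Icc (0 : ℝ) 1,
      Lq q L (x + t • (y - x)) (y - x) t - ⟪c, y - x⟫ + e / q ≤ (|M| + ‖c‖ + |e|) / q := by
    intro t _
    obtain ⟨z, hz, -⟩ := exists_near (x + t • (y - x))
    have h2 : L (x + t • (y - x)) ((q : ℝ) • (y - x)) 0
        = L (x + t • (y - x) + zv z) ((q : ℝ) • (y - x)) 0 :=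
      hL.per _ _ _ _ _ (pr_eq_pr.2 ⟨z, rfl⟩) rfl
    have h3 : L (x + t • (y - x) + zv z) ((q : ℝ) • (y - x)) 0 ≤ M := by
      apply hM
      refine ⟨(x + t • (y - x) + zv z, (q : ℝ) • (y - x), 0), ⟨by simpa using hz, ?_, ?_⟩, rfl⟩
      · have h5 : ‖(q : ℝ) • (y - x)‖ ≤ 1 := by
          rw [norm_smul, Real.norm_of_nonneg hq0.le]
          exact hxy
        simpa only [Metric.mem_closedBall, dist_zero_right] using h5
      · exact ⟨le_refl _, zero_le_one⟩
    have h4 : -⟪c, y - x⟫ ≤ ‖c‖ / q := by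
      have h5 := (abs_le.1 (abs_real_inner_le_norm c (y - x))).1
      have h6 : ‖y - x‖ ≤ 1 / q := by
        rw [le_div_iff₀ hq0, mul_comm]
        exact hxy
      have h7 := mul_le_mul_of_nonneg_left h6 (norm_nonneg c)
      rw [mul_one_div] at h7
      linarith
    have h5 : Lq q L (x + t • (y - x)) (y - x) t ≤ |M| / q := by
      change L (x + t • (y - x)) ((q : ℝ) • (y - x)) 0 / q ≤ |M| / q
      rw [h2]
      exact div_le_div_of_nonneg_right (h3.trans (le_abs_self M)) hq0.le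
    have h6 : e / q ≤ |e| / q := div_le_div_of_nonneg_right (le_abs_self e) hq0.le
    rw [add_div, add_div]
    linarith
  have h2 := intervalIntegral.integral_mono_on (a := (0 : ℝ)) (b := 1) (μ := volume) zero_le_one
    ((sho_seg_cont hK' c (e / q) x y).intervalIntegrable _ _)
    (continuous_const.intervalIntegrable _ _ : IntervalIntegrable
      (fun _ : ℝ => (|M| + ‖c‖ + |e|) / q) volume 0 1) h1
  simpa using h2

theorem short_ub {L : E n → E n → ℝ → ℝ} {κ K : ℝ} (hL : Growth L κ K) (c : E n) (e : ℝ) :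
    ∃ C : ℝ, 0 ≤ C ∧ ∀ q : ℕ, 0 < q → ∀ u : E n → ℝ,
      (∀ x y, u y - u x ≤ Sp (Lq q L) c (e / q) x y) →
      ∀ x y, u y - u x ≤ C * (‖y - x‖ + 1 / q) := by
  obtain ⟨C, hC, hstep⟩ := sho_step hL c e
  refine ⟨C, hC, fun q hq u hu x y => ?_⟩
  have hq0 : (0 : ℝ) < q := Nat.cast_pos.2 hq
  set m : ℕ := ⌊(q : ℝ) * ‖y - x‖⌋₊ + 1 with hm
  have hm0 : (0 : ℝ) < m := by
    rw [hm]
    positivity
  have hnn : (0 : ℝ) ≤ q * ‖y - x‖ := by positivity
  have hlt : (q : ℝ) * ‖y - x‖ < m := by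
    rw [hm]
    push_cast
    exact Nat.lt_floor_add_one _
  have hle : (m : ℝ) ≤ q * ‖y - x‖ + 1 := by
    rw [hm]
    push_cast
    have := Nat.floor_le hnn
    linarith
  have hsum : u y - u x = ∑ i ∈ Finset.range m,
      (u (x + (((i + 1 : ℕ) : ℝ) / m) • (y - x)) - u (x + ((i : ℝ) / m) • (y - x))) := by
    rw [Finset.sum_range_sub (fun i : ℕ => u (x + ((i : ℝ) / m) • (y - x))) m]
    rw [div_self hm0.ne', one_smul, Nat.cast_zero, zero_div, zero_smul, add_zero,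
      add_sub_cancel]
  have hterm : ∀ i ∈ Finset.range m,
      u (x + (((i + 1 : ℕ) : ℝ) / m) • (y - x)) - u (x + ((i : ℝ) / m) • (y - x)) ≤ C / q := by
    intro i _
    refine (hu _ _).trans (hstep q hq _ _ ?_)
    have h1 : x + (((i + 1 : ℕ) : ℝ) / m) • (y - x) - (x + ((i : ℝ) / m) • (y - x))
        = ((1 : ℝ) / m) • (y - x) := by
      have h2 : (((i + 1 : ℕ) : ℝ) / m) = (i : ℝ) / m + 1 / m := by
        push_cast
        rw [add_div]
      rw [h2, add_smul]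
      abel
    rw [h1, norm_smul, Real.norm_of_nonneg (by positivity)]
    have h3 : (q : ℝ) * (1 / m * ‖y - x‖) = (q * ‖y - x‖) / m := by ring
    rw [h3, div_le_one hm0]
    exact hlt.le
  calc u y - u x ≤ ∑ _i ∈ Finset.range m, C / q := by
        rw [hsum]
        exact Finset.sum_le_sum hterm
    _ = m * (C / q) := by rw [Finset.sum_const, Finset.card_range, nsmul_eq_mul]
    _ ≤ (q * ‖y - x‖ + 1) * (C / q) :=
        mul_le_mul_of_nonneg_right hle (div_nonneg hC hq0.le)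
    _ = C * (‖y - x‖ + 1 / q) := by
        field_simp

private theorem sho_ge {L : E n → E n → ℝ → ℝ} {κ K : ℝ} (hL : Growth L κ K) {q : ℕ}
    (hq : 0 < q) (c : E n) (e : ℝ) (x y : E n) {r : ℝ} (hr : r ∈ acts (Lq q L) c (e / q) x y) :
    κ / 2 * q * ‖y - x‖ ^ 2 - |K + ‖c‖ ^ 2 / (2 * κ) - e| / q ≤ r := by
  obtain ⟨γ, hγ, h0, h1⟩ := hr
  have hκ := hL.pos
  have hq0 : (0 : ℝ) < q := Nat.cast_pos.2 hq
  set F : ℝ → ℝ := fun t => Lq q L (γ t) (deriv γ t) t - ⟪c, deriv γ t⟫ + e / q with hF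
  set C : ℝ := (K + ‖c‖ ^ 2 / (2 * κ) - e) / q with hC
  have hlo : ∀ t, κ / 2 * q * ‖deriv γ t‖ ^ 2 - C ≤ F t := by
    intro t
    have h1 := hL.lo (γ t) ((q : ℝ) • deriv γ t) 0
    have h2 : ⟪c, deriv γ t⟫ ≤ ‖c‖ * ‖deriv γ t‖ := real_inner_le_norm _ _
    have h3 : ‖c‖ * ‖deriv γ t‖ ≤ κ / 2 * q * ‖deriv γ t‖ ^ 2 + ‖c‖ ^ 2 / (2 * κ) / q := by
      have h4 : κ / 2 * q * ‖deriv γ t‖ ^ 2 + ‖c‖ ^ 2 / (2 * κ) / q - ‖c‖ * ‖deriv γ t‖ =
          (κ * q * ‖deriv γ t‖ - ‖c‖) ^ 2 / (2 * κ * q) := by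
        field_simp
        ring
      have h5 : 0 ≤ (κ * q * ‖deriv γ t‖ - ‖c‖) ^ 2 / (2 * κ * q) := by positivity
      linarith
    have h6 : κ * q * ‖deriv γ t‖ ^ 2 - K / q ≤ Lq q L (γ t) (deriv γ t) t := by
      change _ ≤ L (γ t) ((q : ℝ) • deriv γ t) 0 / q
      rw [le_div_iff₀ hq0]
      rw [norm_smul, Real.norm_of_nonneg hq0.le] at h1
      have h7 : (κ * q * ‖deriv γ t‖ ^ 2 - K / q) * q = κ * (q * ‖deriv γ t‖) ^ 2 - K := by
        field_simp
      rw [h7]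
      exact h1
    have h8 : C = K / q + ‖c‖ ^ 2 / (2 * κ) / q - e / q := by
      rw [hC, sub_div, add_div]
    simp only [hF]
    rw [h8]
    linarith
  have hint : IntervalIntegrable F volume 0 1 := by
    have := hγ.int
    rw [Nat.cast_one] at this
    exact this
  have hi : IntervalIntegrable (fun t => ‖deriv γ t‖ ^ 2) volume 0 1 := by
    have hg : IntervalIntegrable (fun t => 2 / (κ * q) * (F t + C)) volume 0 1 :=
      (hint.add intervalIntegrable_const).const_mul _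
    refine hg.mono_fun' ?_ ?_
    · exact ((aestronglyMeasurable_deriv γ _).norm.pow 2)
    · refine Filter.Eventually.of_forall ?_
      intro t
      have h5 := hlo t
      have h6 : ‖deriv γ t‖ ^ 2 = 2 / (κ * q) * (κ / 2 * q * ‖deriv γ t‖ ^ 2) := by
        field_simp
      have h7 : ‖‖deriv γ t‖ ^ 2‖ = ‖deriv γ t‖ ^ 2 := by
        rw [Real.norm_eq_abs, abs_of_nonneg (by positivity)]
      change ‖‖deriv γ t‖ ^ 2‖ ≤ 2 / (κ * q) * (F t + C)
      rw [h7, h6]
      refine mul_le_mul_of_nonneg_left ?_ (by positivity)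
      linarith
  have hj := crv_jensen (by simpa using hγ.ac) hi
  rw [h0, h1] at hj
  have hr : r = ∫ t in (0 : ℝ)..1, F t := by
    have := hγ.eq
    rw [Nat.cast_one] at this
    exact this
  have hmono : ∫ t in (0 : ℝ)..1, (κ / 2 * q * ‖deriv γ t‖ ^ 2 - C) ≤ ∫ t in (0 : ℝ)..1, F t :=
    intervalIntegral.integral_mono_on zero_le_one
      ((hi.const_mul (κ / 2 * q)).sub intervalIntegrable_const) hint (fun t _ => hlo t)
  rw [intervalIntegral.integral_sub (hi.const_mul (κ / 2 * q)) intervalIntegrable_const,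
    intervalIntegral.integral_const_mul, intervalIntegral.integral_const] at hmono
  simp only [sub_zero, one_smul] at hmono
  have hk : 0 ≤ κ / 2 * q := by positivity
  have h9 := mul_le_mul_of_nonneg_left hj hk
  have h10 : C ≤ |K + ‖c‖ ^ 2 / (2 * κ) - e| / q :=
    div_le_div_of_nonneg_right (le_abs_self _) hq0.le
  rw [hr]
  linarith

theorem Sq_lb {L : E n → E n → ℝ → ℝ} {κ K : ℝ} (hL : Growth L κ K) {q : ℕ} (hq : 0 < q) (c : E n)
    (e : ℝ) (x y : E n) : κ / 2 * q * ‖y - x‖ ^ 2 - |K + ‖c‖ ^ 2 / (2 * κ) - e| / q ≤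
      Sp (Lq q L) c (e / q) x y := by
  obtain ⟨K', hK'⟩ := growth_q hL hq
  exact le_csInf (acts_nonempty hK' c (e / q) x y) fun _ hr => sho_ge hL hq c e x y hr

end Pool.Agent.H68.HDA
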