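import Pool.Agent.H68.HDA.Base
import Pool.Agent.H68.HDA.Sho

/-!
# Module Spe: bounded speed of calibrated chains, oscillation of `u`
`T = k/q`, `r = ‖y (i+k) - y i‖`, `A = u (y (i+k)) - u (y i) = ∑ S (y l) (y (l+1))`. `Sq_lb`: `A ≥ (κ/2) q ∑ ‖Δ‖² - K₁ T ≥ (κ/2) r²/T - K₁ T`
(`r² ≤ (∑ ‖Δ‖)² ≤ k ∑ ‖Δ‖²`, `q/k = 1/T`). `short_ub`: `A ≤ C (r + 1/q) ≤ C (r + T)`. Hence `(κ/2) r² ≤ C r T + (C + K₁) T²`, `r ≤ C₂ T`, `A ≤ C (C₂ + 1) T`.
`osc`: `exists_near (y - x)` and periodicity: `u y - u x ≤ C (√n + 1)`.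
-/

set_option autoImplicit false

open MeasureTheory Filter
open scoped RealInnerProductSpace

namespace Pool.Agent.H68.HDA

open Pool.Agent.H33.AM (E Tor pr IsPeriodic)
open Pool.Agent.H68.HD

variable {n : ℕ}

theorem chain_short {L : E n → E n → ℝ → ℝ} {κ K : ℝ} (hL : Growth L κ K) (c : E n) (e : ℝ) :
    ∃ C : ℝ, 0 ≤ C ∧ ∀ q : ℕ, 0 < q → ∀ (u : E n → ℝ) (y : ℕ → E n),
      Cal (Sp (Lq q L) c (e / q)) u y → ∀ i k : ℕ, 0 < k →
        ‖y (i + k) - y i‖ ≤ C * ((k : ℝ) / q) ∧ u (y (i + k)) - u (y i) ≤ C * ((k : ℝ) / q) := by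
  obtain ⟨C₀, hC₀, hub⟩ := short_ub hL c e
  have hκ := hL.pos
  set K₁ : ℝ := |K + ‖c‖ ^ 2 / (2 * κ) - e| with hK₁
  have hK₁0 : 0 ≤ K₁ := abs_nonneg _
  set C₂ : ℝ := 1 + 2 / κ * (2 * C₀ + K₁) with hC₂
  have hC₂1 : 1 ≤ C₂ := by
    have : 0 ≤ 2 / κ * (2 * C₀ + K₁) := by positivity
    linarith
  have hC₂κ : κ / 2 * C₂ = κ / 2 + (2 * C₀ + K₁) := by
    rw [hC₂]; field_simp
  refine ⟨C₂ + C₀ * (C₂ + 1), by positivity, fun q hq u y hcal i k hk => ?_⟩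
  have hq' : (0 : ℝ) < q := by exact_mod_cast hq
  have hk' : (1 : ℝ) ≤ k := by exact_mod_cast hk
  set r : ℝ := ‖y (i + k) - y i‖ with hr
  set T : ℝ := (k : ℝ) / q with hT
  have hr0 : 0 ≤ r := norm_nonneg _
  have hT0 : 0 < T := by positivity
  set A : ℝ := u (y (i + k)) - u (y i) with hA
  have hqT : 1 / (q : ℝ) ≤ T := by
    rw [hT]; gcongr
  have h1 : A ≤ C₀ * (r + T) := by
    have := hub q hq u hcal.sub (y i) (y (i + k))
    calc A ≤ C₀ * (r + 1 / q) := this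
      _ ≤ C₀ * (r + T) := by gcongr
  -- the increments
  have hsum : A = ∑ l ∈ Finset.range k, (u (y (i + l + 1)) - u (y (i + l))) := by
    have := Finset.sum_range_sub (fun l => u (y (i + l))) k
    simp only [add_zero] at this
    rw [hA, ← this]
    rfl
  have hvec : y (i + k) - y i = ∑ l ∈ Finset.range k, (y (i + l + 1) - y (i + l)) := by
    have := Finset.sum_range_sub (fun l => y (i + l)) k
    simp only [add_zero] at this
    rw [← this]
    rfl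
  have hrsum : r ≤ ∑ l ∈ Finset.range k, ‖y (i + l + 1) - y (i + l)‖ := by
    rw [hr, hvec]
    exact norm_sum_le _ _
  have hrsq : r ^ 2 ≤ k * ∑ l ∈ Finset.range k, ‖y (i + l + 1) - y (i + l)‖ ^ 2 := by
    calc r ^ 2 ≤ (∑ l ∈ Finset.range k, ‖y (i + l + 1) - y (i + l)‖) ^ 2 := by gcongr
      _ ≤ _ := by
        have := sq_sum_le_card_mul_sum_sq (s := Finset.range k)
          (f := fun l => ‖y (i + l + 1) - y (i + l)‖)
        simpa using this
  have hlow : κ / 2 * q * (∑ l ∈ Finset.range k, ‖y (i + l + 1) - y (i + l)‖ ^ 2) - K₁ * T ≤ A := by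
    rw [hsum]
    have h2 : κ / 2 * q * (∑ l ∈ Finset.range k, ‖y (i + l + 1) - y (i + l)‖ ^ 2) - K₁ * T =
        ∑ l ∈ Finset.range k, (κ / 2 * q * ‖y (i + l + 1) - y (i + l)‖ ^ 2 - K₁ / q) := by
      rw [Finset.sum_sub_distrib, Finset.sum_const, Finset.card_range, nsmul_eq_mul,
        ← Finset.mul_sum, hT]
      ring
    rw [h2]
    apply Finset.sum_le_sum
    intro l _
    rw [← hcal.cal (i + l)]
    exact Sq_lb hL hq c e _ _
  have h3 : κ / 2 * r ^ 2 ≤ C₀ * r * T + (C₀ + K₁) * T ^ 2 := by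
    have h4 : κ / 2 * r ^ 2 ≤ T * (κ / 2 * q *
        (∑ l ∈ Finset.range k, ‖y (i + l + 1) - y (i + l)‖ ^ 2)) := by
      have h5 : T * (κ / 2 * q * (∑ l ∈ Finset.range k, ‖y (i + l + 1) - y (i + l)‖ ^ 2)) =
          κ / 2 * (k * ∑ l ∈ Finset.range k, ‖y (i + l + 1) - y (i + l)‖ ^ 2) := by
        rw [hT]; field_simp
      rw [h5]
      gcongr
    have h6 : T * (κ / 2 * q * (∑ l ∈ Finset.range k, ‖y (i + l + 1) - y (i + l)‖ ^ 2)) ≤
        T * (C₀ * (r + T) + K₁ * T) := by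
      apply mul_le_mul_of_nonneg_left _ hT0.le
      linarith
    calc κ / 2 * r ^ 2 ≤ T * (C₀ * (r + T) + K₁ * T) := h4.trans h6
      _ = C₀ * r * T + (C₀ + K₁) * T ^ 2 := by ring
  have h7 : r ≤ C₂ * T := by
    by_contra hcon
    push Not at hcon
    have hrT : T ≤ r := by nlinarith
    have hr1 : 0 < r := lt_of_lt_of_le hT0 hrT
    have h8 : κ / 2 * (C₂ * T) * r < κ / 2 * r * r := by
      have : κ / 2 * (C₂ * T) < κ / 2 * r := by
        apply mul_lt_mul_of_pos_left hcon (by positivity)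
      exact mul_lt_mul_of_pos_right this hr1
    have h9 : κ / 2 * (C₂ * T) * r = κ / 2 * T * r + (2 * C₀ + K₁) * T * r := by
      have : κ / 2 * (C₂ * T) * r = (κ / 2 * C₂) * T * r := by ring
      rw [this, hC₂κ]; ring
    have h10 : (C₀ + K₁) * T ^ 2 ≤ (C₀ + K₁) * T * r := by
      have : (C₀ + K₁) * T * T ≤ (C₀ + K₁) * T * r := by
        apply mul_le_mul_of_nonneg_left hrT (by positivity)
      nlinarith
    have h11 : 0 < κ / 2 * T * r := by positivity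
    nlinarith
  constructor
  · calc r ≤ C₂ * T := h7
      _ ≤ (C₂ + C₀ * (C₂ + 1)) * T := by
        apply mul_le_mul_of_nonneg_right _ hT0.le
        have : 0 ≤ C₀ * (C₂ + 1) := by positivity
        linarith
  · calc A ≤ C₀ * (r + T) := h1
      _ ≤ C₀ * (C₂ * T + T) := by gcongr
      _ = C₀ * (C₂ + 1) * T := by ring
      _ ≤ (C₂ + C₀ * (C₂ + 1)) * T := by
        apply mul_le_mul_of_nonneg_right _ hT0.le
        linarith

theorem osc {L : E n → E n → ℝ → ℝ} {κ K : ℝ} (hL : Growth L κ K) (c : E n) (e : ℝ) :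
    ∃ B : ℝ, 0 ≤ B ∧ ∀ q : ℕ, 0 < q → ∀ (u : E n → ℝ) (y : ℕ → E n),
      Cal (Sp (Lq q L) c (e / q)) u y → ∀ x w : E n, u w - u x ≤ B := by
  obtain ⟨C₀, hC₀, hub⟩ := short_ub hL c e
  refine ⟨C₀ * (Real.sqrt n + 1), by positivity, fun q hq u y hcal x w => ?_⟩
  obtain ⟨z, hz, -⟩ := exists_near (w - x)
  have hq' : (1 : ℝ) ≤ q := by exact_mod_cast hq
  rw [← hcal.per w z]
  calc u (w + zv z) - u x ≤ C₀ * (‖w + zv z - x‖ + 1 / q) := hub q hq u hcal.sub x (w + zv z)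
    _ ≤ C₀ * (Real.sqrt n + 1) := by
      have h1 : w + zv z - x = w - x + zv z := by abel
      have h2 : 1 / (q : ℝ) ≤ 1 := by
        rw [div_le_one (by linarith)]; exact hq'
      rw [h1]
      gcongr

end Pool.Agent.H68.HDA
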