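import Pool.Agent.H68.HDA.Base
import Pool.Agent.H68.HD.AC1
import Pool.Agent.H68.HD.AC2
import Pool.Agent.H68.HD.S1
import Pool.Agent.H68.HDA.Res
import Pool.Agent.H68.HDA.Gro

/-!
# Module Uni: unit time and `q` steps
`Sp_le_chain`: almost optimal curves of `L_q` for the steps, `crv_chain`, `crv_q'` with `k = 1`, `csInf_le`. `exists_chain_le`: an almost optimal curve of `L` on `[0,1]`,
`crv_q`, cut (`crv_cut`), `f i = γ i` (rescaled curve), `csInf_le` for the pieces. `sub_unit`: consequence.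
-/

set_option autoImplicit false

open MeasureTheory Filter
open scoped RealInnerProductSpace

namespace Pool.Agent.H68.HDA

open Pool.Agent.H33.AM (E Tor pr IsPeriodic)
open Pool.Agent.H68.HD

variable {n : ℕ}

/-- every action is at least the potential -/
private theorem Sp_le {L : E n → E n → ℝ → ℝ} {κ K : ℝ} (hL : Growth L κ K) (c : E n) (e : ℝ)
    {x y : E n} {r : ℝ} (hr : r ∈ acts L c e x y) : Sp L c e x y ≤ r :=
  csInf_le ⟨_, fun _ h => acts_ge hL c e x y h⟩ hr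

/-- almost optimal curves -/
private theorem exists_acts {L : E n → E n → ℝ → ℝ} {κ K : ℝ} (hL : Growth L κ K) (c : E n) (e : ℝ)
    (x y : E n) {ε : ℝ} (hε : 0 < ε) :
    ∃ γ r, Crv L c e 1 γ r ∧ γ 0 = x ∧ γ 1 = y ∧ r ≤ Sp L c e x y + ε := by
  obtain ⟨r, ⟨γ, hγ, h0, h1⟩, hr⟩ := Real.lt_sInf_add_pos (acts_nonempty hL c e x y) hε
  exact ⟨γ, r, hγ, h0, h1, hr.le⟩

theorem Sp_le_chain {L : E n → E n → ℝ → ℝ} {κ K : ℝ} (hL : Growth L κ K) (ha : Aut L) {q : ℕ}
    (hq : 0 < q) (c : E n) (e : ℝ) (f : ℕ → E n) :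
    Sp L c e (f 0) (f q) ≤ cost (Sp (Lq q L) c (e / q)) f q := by
  obtain ⟨K', hLq⟩ := growth_q hL hq
  have hq' : (0 : ℝ) < q := by exact_mod_cast hq
  apply le_of_forall_pos_le_add
  intro ε hε
  have h1 := fun i : ℕ =>
    exists_acts hLq c (e / q) (f i) (f (i + 1)) (ε := ε / q) (by positivity)
  choose γ r hγ h0 h1' hr using h1
  obtain ⟨η, hη, hη0, hη1⟩ := crv_chain hLq.per q f γ r (fun i _ => hγ i) (fun i _ => h0 i)
    (fun i _ => h1' i)
  have hη' : Crv (Lq q L) c (e / q) (1 * q) η (∑ i ∈ Finset.range q, r i) := by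
    rw [one_mul]
    exact hη
  have h2 := crv_q' ha hq hη'
  have h3 : Sp L c e (f 0) (f q) ≤ ∑ i ∈ Finset.range q, r i := by
    apply Sp_le hL
    refine ⟨_, h2, ?_, ?_⟩
    · simp only [zero_mul]
      exact hη0
    · simp only [one_mul]
      exact hη1
  refine h3.trans ?_
  unfold cost
  calc ∑ i ∈ Finset.range q, r i
      ≤ ∑ i ∈ Finset.range q, (Sp (Lq q L) c (e / q) (f i) (f (i + 1)) + ε / q) :=
        Finset.sum_le_sum fun i _ => hr i
    _ = ∑ i ∈ Finset.range q, Sp (Lq q L) c (e / q) (f i) (f (i + 1)) + ε := by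
        rw [Finset.sum_add_distrib, Finset.sum_const, Finset.card_range, nsmul_eq_mul,
          mul_div_cancel₀ _ hq'.ne']

theorem exists_chain_le {L : E n → E n → ℝ → ℝ} {κ K : ℝ} (hL : Growth L κ K) (ha : Aut L) {q : ℕ}
    (hq : 0 < q) (c : E n) (e : ℝ) (x y : E n) (ε : ℝ) (hε : 0 < ε) :
    ∃ f : ℕ → E n, f 0 = x ∧ f q = y ∧
      cost (Sp (Lq q L) c (e / q)) f q ≤ Sp L c e x y + ε := by
  obtain ⟨K', hLq⟩ := growth_q hL hq
  have hq' : (0 : ℝ) < q := by exact_mod_cast hq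
  obtain ⟨γ, r, hγ, h0, h1, hr⟩ := exists_acts hL c e x y hε
  have h2 := crv_q ha hq hγ
  rw [one_mul] at h2
  obtain ⟨δ, s, hδ, hs⟩ := crv_cut hLq.per h2
  refine ⟨fun i => γ ((i : ℝ) / q), ?_, ?_, ?_⟩
  · simp only [Nat.cast_zero, zero_div]
    exact h0
  · simp only [div_self hq'.ne']
    exact h1
  · refine le_trans ?_ hr
    rw [hs]
    unfold cost
    refine Finset.sum_le_sum fun i hi => ?_
    obtain ⟨h3, h4, h5⟩ := hδ i (Finset.mem_range.mp hi)
    exact Sp_le hLq c (e / q) ⟨δ i, h3, h4, h5⟩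

theorem sub_unit {L : E n → E n → ℝ → ℝ} {κ K : ℝ} (hL : Growth L κ K) (ha : Aut L) {q : ℕ}
    (hq : 0 < q) (c : E n) (e : ℝ) {u : E n → ℝ}
    (hu : ∀ x y, u y - u x ≤ Sp (Lq q L) c (e / q) x y) (x y : E n) :
    u y - u x ≤ Sp L c e x y := by
  apply le_of_forall_pos_le_add
  intro ε hε
  obtain ⟨f, h0, h1, h2⟩ := exists_chain_le hL ha hq c e x y ε hε
  refine le_trans ?_ h2
  have h3 := Finset.sum_range_sub (fun i => u (f i)) q
  rw [← h0, ← h1, ← h3]
  unfold cost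
  exact Finset.sum_le_sum fun i _ => hu _ _

end Pool.Agent.H68.HDA
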