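import Pool.Agent.H68.HDA.Base
import Pool.Agent.H68.HD.S2
import Pool.Agent.H68.HDA.Uni
import Pool.Agent.H68.HDA.Spe

/-!
# Module ClL: closing costs, long times
`S = Sp L c e` with `Pot S a b κ' K'` (`pot`), `S_q = Sp (Lq q L) c (e/q)`, `B` from `osc`, `C = 2 a + 2 b B`. `S (y (j-q)) (y j) = u (y j) - u (y (j-q))` (`Sp_le_chain` for the chain
`i ↦ y (j - q + i)`, whose cost telescopes, and `sub_unit`), same for `S (y j) (y (j+q))`; both are `≤ B`. With `e' = y i + zv z - y j`, `F e' = S (y (j-q)) (y j + e')`,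
`G e' = S (y j + e') (y (j+q))` argue as in HD/Clo: `F e' ≤ u (y i) - u (y (j-q)) + C ‖e'‖²`. The closed chain: `y i, ..., y (j-q)` (`j - i - q` steps, cost
`u (y (j-q)) - u (y i)`), then the `q`-step chain of `exists_chain_le` from `y (j-q)` to `y j + e' = y i + zv z`.
-/

set_option autoImplicit false

open MeasureTheory Filter
open scoped RealInnerProductSpace

namespace Pool.Agent.H68.HDA

open Pool.Agent.H33.AM (E Tor pr IsPeriodic)
open Pool.Agent.H68.HD

variable {n : ℕ}

private theorem cll_tel {S : E n → E n → ℝ} {u : E n → ℝ} {y : ℕ → E n} (h : Cal S u y)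
    (i m : ℕ) : ∑ l ∈ Finset.range m, S (y (i + l)) (y (i + (l + 1))) = u (y (i + m)) - u (y i) := by
  have h1 : ∑ l ∈ Finset.range m, S (y (i + l)) (y (i + (l + 1))) =
      ∑ l ∈ Finset.range m, (u (y (i + (l + 1))) - u (y (i + l))) :=
    Finset.sum_congr rfl fun l _ => h.cal (i + l)
  rw [h1, Finset.sum_range_sub (fun l => u (y (i + l)))]
  simp

private theorem cll_chain {S : E n → E n → ℝ} {u : E n → ℝ} {y : ℕ → E n} (h : Cal S u y)
    (i k q : ℕ) (f : ℕ → E n) (h0 : f 0 = y (i + k)) :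
    cost S (fun l => if l ≤ k then y (i + l) else f (l - k)) (k + q) =
      u (y (i + k)) - u (y i) + cost S f q := by
  unfold cost
  rw [Finset.sum_range_add]
  congr 1
  · rw [← cll_tel h i k]
    refine Finset.sum_congr rfl fun l hl => ?_
    have hl' := Finset.mem_range.1 hl
    have e1 : l ≤ k := by omega
    have e2 : l + 1 ≤ k := by omega
    simp only [e1, e2, if_true]
  · refine Finset.sum_congr rfl fun l _ => ?_
    have e1 : (if k + l ≤ k then y (i + (k + l)) else f (k + l - k)) = f l := by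
      rcases Nat.eq_zero_or_pos l with rfl | hl
      · simp [h0]
      · rw [if_neg (by omega), Nat.add_sub_cancel_left]
    have e2 : (if k + l + 1 ≤ k then y (i + (k + l + 1)) else f (k + l + 1 - k)) = f (l + 1) := by
      rw [if_neg (by omega), Nat.add_assoc, Nat.add_sub_cancel_left]
    simp only [e1, e2]

theorem closing_long {L : E n → E n → ℝ → ℝ} {κ K : ℝ} (hL : Growth L κ K) (ha : Aut L) (c : E n)
    (e : ℝ) : ∃ C : ℝ, 0 ≤ C ∧ ∀ q : ℕ, 0 < q → ∀ (u : E n → ℝ) (y : ℕ → E n),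
      Cal (Sp (Lq q L) c (e / q)) u y → ∀ (i j : ℕ) (z : Fin n → ℤ), i < j → q ≤ j - i →
      ‖y i + zv z - y j‖ ≤ 1 → ∀ ε : ℝ, 0 < ε →
      ∃ g, Cl g (j - i) z ∧
        cost (Sp (Lq q L) c (e / q)) g (j - i) ≤ C * ‖y i + zv z - y j‖ ^ 2 + ε := by
  obtain ⟨a, b, κ', K', hP⟩ := pot hL c e
  obtain ⟨B, hB0, hB⟩ := osc hL c e
  have hb := hP.hb
  have hna := hP.ha
  refine ⟨2 * a + b * B, by positivity, ?_⟩
  intro q hq u y hy i j z hij hqj hn ε hε
  obtain ⟨k, rfl⟩ : ∃ k, j = i + k + q := ⟨j - i - q, by omega⟩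
  have hk : i + k + q - i = k + q := by omega
  rw [hk]
  have hsub := sub_unit hL ha hq c e hy.sub
  -- the two unit steps
  have hstep : ∀ l, Sp L c e (y l) (y (l + q)) = u (y (l + q)) - u (y l) := by
    intro l
    apply le_antisymm _ (hsub _ _)
    have h1 := Sp_le_chain hL ha hq c e (fun m => y (l + m))
    have h2 : cost (Sp (Lq q L) c (e / q)) (fun m => y (l + m)) q = u (y (l + q)) - u (y l) :=
      cll_tel hy l q
    rw [h2] at h1
    simpa using h1
  set x := y i + zv z - y (i + k + q) with hx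
  have hyx : y (i + k + q) + x = y i + zv z := by rw [hx]; abel
  have s1 := hP.scr (y (i + k)) (y (i + k + q)) x hn
  have s2 := hP.scl (y (i + k + q)) (y (i + k + q + q)) x hn
  rw [hyx, hstep (i + k)] at s1
  rw [hyx, hstep (i + k + q)] at s2
  have m1 := hsub (y (i + k)) (y (i + k + q) - x)
  have m2 := hsub (y (i + k + q) - x) (y (i + k + q + q))
  have m3 := hsub (y i + zv z) (y (i + k + q + q))
  rw [hy.per] at m3
  have hosc := hB q hq u y hy (y (i + k)) (y (i + k + q + q))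
  have hn0 : 0 ≤ ‖x‖ ^ 2 := by positivity
  have c1 : b * (u (y (i + k + q + q)) - u (y (i + k))) * ‖x‖ ^ 2 ≤ b * B * ‖x‖ ^ 2 :=
    mul_le_mul_of_nonneg_right (mul_le_mul_of_nonneg_left hosc hb) hn0
  have hF : Sp L c e (y (i + k)) (y i + zv z) ≤
      u (y i) - u (y (i + k)) + (2 * a + b * B) * ‖x‖ ^ 2 := by
    nlinarith [c1, s1, s2, m1, m2, m3]
  obtain ⟨f, hf0, hfq, hfc⟩ := exists_chain_le hL ha hq c e (y (i + k)) (y i + zv z) ε hε
  refine ⟨fun l => if l ≤ k then y (i + l) else f (l - k), ⟨by omega, ?_⟩, ?_⟩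
  · have e1 : ¬ (k + q ≤ k) := by omega
    simp only [e1, if_false, Nat.add_sub_cancel_left, hfq, Nat.zero_le, if_true, Nat.add_zero]
  · rw [cll_chain hy i k q f hf0]
    linarith

end Pool.Agent.H68.HDA
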