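import Pool.Agent.H68.HDA.Base
import Pool.Agent.H68.HD.AC1
import Pool.Agent.H68.HD.AC2
import Pool.Agent.H68.HD.S1
import Pool.Agent.H68.HDA.Gro

/-!
# Module Sem: second differences of short chains, uniformly in `q`
`T = k/q ≤ 1`, `K₁ = |K + ‖c‖²/(2κ) - e|`. Take almost optimal curves of `L_q` for the steps of `f` (total `≤ cost + ε'`), concatenate (`crv_chain`): `γ` on `[0, k]`, action
`r' ≤ cost + ε'`. Let `δ s = ξ₀ + (s/k) (ξ₁ - ξ₀)` (norm `≤ ρ ≤ T ≤ 1`), `q ‖δ'‖ = (q/k) ‖ξ₁ - ξ₀‖ ≤ ρ/T ≤ 1`. `hL.sc` (at `t = 0`) for `L (γ ± δ) (q (w ± δ')) 0`, `w = deriv γ`: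
the sum of the two actions of `γ ± δ` is at most `2 r' + (1/q) ∫_0^k |K| (1 + ‖q w‖²)(ρ² + ρ²/T²) ≤ 2 r' + 2 |K| ρ²/T² (T + q ∫ ‖w‖²)`, and
`q ∫_0^k ‖w‖² ≤ (2/κ)(r' + K₁ T)` since the integrand of `L_q` is `≥ (κ/2) q ‖w‖² - K₁/q`. Cut `γ ± δ` (`crv_cut`) into chains. Integrability as in HD/S2
(sum bound, lower bounds).
-/

set_option autoImplicit false

open MeasureTheory Filter
open scoped RealInnerProductSpace

namespace Pool.Agent.H68.HDA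

open Pool.Agent.H33.AM (E Tor pr IsPeriodic)
open Pool.Agent.H68.HD

variable {n : ℕ}

private theorem sem_low {L : E n → E n → ℝ → ℝ} {κ K : ℝ} (hL : Growth L κ K) {q : ℕ}
    (hq : 0 < q) (c : E n) (e : ℝ) (x w : E n) (t : ℝ) :
    κ / 2 * ((q : ℝ) * ‖w‖ ^ 2) - (K + ‖c‖ ^ 2 / (2 * κ) - e) / q ≤
      Lq q L x w t - ⟪c, w⟫ + e / q := by
  have hq' : (0 : ℝ) < (q : ℝ) := Nat.cast_pos.2 hq
  obtain ⟨v, hv⟩ : ∃ v : E n, v = (q : ℝ) • w := ⟨_, rfl⟩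
  have h1 := hL.lo x v 0
  have h2 : ⟪c, v⟫ ≤ ‖c‖ * ‖v‖ := real_inner_le_norm c v
  have hk := hL.pos
  have h3 : ‖c‖ * ‖v‖ ≤ κ / 2 * ‖v‖ ^ 2 + ‖c‖ ^ 2 / (2 * κ) := by
    have h4 : κ / 2 * ‖v‖ ^ 2 + ‖c‖ ^ 2 / (2 * κ) - ‖c‖ * ‖v‖ =
        (κ * ‖v‖ - ‖c‖) ^ 2 / (2 * κ) := by
      field_simp
      ring
    have h5 : 0 ≤ (κ * ‖v‖ - ‖c‖) ^ 2 / (2 * κ) := by positivity
    linarith
  have h6 : κ / 2 * ‖v‖ ^ 2 - (K + ‖c‖ ^ 2 / (2 * κ) - e) ≤ L x v 0 - ⟪c, v⟫ + e := by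
    linarith
  have h7 : ‖v‖ ^ 2 = (q : ℝ) ^ 2 * ‖w‖ ^ 2 := by
    rw [hv, norm_smul, Real.norm_of_nonneg hq'.le, mul_pow]
  have h8 : Lq q L x w t - ⟪c, w⟫ + e / q = (L x v 0 - ⟪c, v⟫ + e) / q := by
    have h9 : ⟪c, v⟫ = (q : ℝ) * ⟪c, w⟫ := by
      rw [hv, inner_smul_right]
    rw [h9]
    unfold Lq
    rw [← hv]
    field_simp
  have h10 : κ / 2 * ((q : ℝ) * ‖w‖ ^ 2) - (K + ‖c‖ ^ 2 / (2 * κ) - e) / q =
      (κ / 2 * ‖v‖ ^ 2 - (K + ‖c‖ ^ 2 / (2 * κ) - e)) / q := by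
    rw [h7]
    field_simp
  rw [h8, h10]
  exact div_le_div_of_nonneg_right h6 hq'.le

private theorem sem_meas {M : E n → E n → ℝ → ℝ} {κ K : ℝ} (hM : Growth M κ K) (c : E n) (e : ℝ)
    {k : ℕ} {γ : ℝ → E n} (h : AbsolutelyContinuousOnInterval γ 0 k) :
    AEStronglyMeasurable (fun t => M (γ t) (deriv γ t) t - ⟪c, deriv γ t⟫ + e)
      (volume.restrict (Set.Ioc (0 : ℝ) k)) := by
  have hk0 : (0 : ℝ) ≤ (k : ℝ) := Nat.cast_nonneg k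
  have h1 : AEStronglyMeasurable γ (volume.restrict (Set.Ioc (0 : ℝ) k)) := by
    have h2 : ContinuousOn γ (Set.uIcc 0 (k : ℝ)) := h.continuousOn
    rw [Set.uIcc_of_le hk0] at h2
    exact (h2.mono Set.Ioc_subset_Icc_self).aestronglyMeasurable measurableSet_Ioc
  have h3 : AEStronglyMeasurable (deriv γ) (volume.restrict (Set.Ioc (0 : ℝ) k)) :=
    (stronglyMeasurable_deriv γ).aestronglyMeasurable
  have h4 : AEStronglyMeasurable (fun t => M (γ t) (deriv γ t) t)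
      (volume.restrict (Set.Ioc (0 : ℝ) k)) :=
    hM.cont.comp_aestronglyMeasurable (h1.prodMk (h3.prodMk aestronglyMeasurable_id))
  exact (h4.sub (aestronglyMeasurable_const.inner h3)).add aestronglyMeasurable_const

/-- The second difference of `L_q`. -/
private theorem sem_sc {L : E n → E n → ℝ → ℝ} {κ K : ℝ} (hL : Growth L κ K) {q : ℕ}
    (hq : 0 < q) (c : E n) (e : ℝ) (x w d g : E n) (t : ℝ) (ρ T : ℝ) (hT : 0 < T) (hT1 : T ≤ 1)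
    (hρ : ρ ≤ T) (hd : ‖d‖ ≤ ρ) (hg : ‖(q : ℝ) • g‖ ≤ ρ / T) :
    (Lq q L (x + d) (w + g) t - ⟪c, w + g⟫ + e / q) +
      (Lq q L (x - d) (w - g) t - ⟪c, w - g⟫ + e / q) ≤
      2 * (Lq q L x w t - ⟪c, w⟫ + e / q) +
        2 * |K| * ρ ^ 2 / T ^ 2 * (1 / q + (q : ℝ) * ‖w‖ ^ 2) := by
  have hq' : (0 : ℝ) < (q : ℝ) := Nat.cast_pos.2 hq
  have hρ0 : 0 ≤ ρ := (norm_nonneg _).trans hd
  have hρT : ρ / T ≤ 1 := by
    rw [div_le_one hT]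
    exact hρ
  have h3 := hL.sc x ((q : ℝ) • w) 0 d ((q : ℝ) • g) (hd.trans (hρ.trans hT1)) (hg.trans hρT)
  have hρρ : ρ ^ 2 ≤ ρ ^ 2 / T ^ 2 := by
    rw [le_div_iff₀ (by positivity)]
    have : T ^ 2 ≤ 1 := pow_le_one₀ hT.le hT1
    nlinarith [sq_nonneg ρ]
  have h4 : K * (1 + ‖(q : ℝ) • w‖ ^ 2) * (‖d‖ ^ 2 + ‖(q : ℝ) • g‖ ^ 2) ≤
      2 * |K| * ρ ^ 2 / T ^ 2 * (1 + (q : ℝ) ^ 2 * ‖w‖ ^ 2) := by
    have h5 : ‖d‖ ^ 2 ≤ ρ ^ 2 / T ^ 2 := (pow_le_pow_left₀ (norm_nonneg _) hd 2).trans hρρ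
    have h6 : ‖(q : ℝ) • g‖ ^ 2 ≤ ρ ^ 2 / T ^ 2 := by
      rw [← div_pow]
      exact pow_le_pow_left₀ (norm_nonneg _) hg 2
    have h7 : K * (1 + ‖(q : ℝ) • w‖ ^ 2) * (‖d‖ ^ 2 + ‖(q : ℝ) • g‖ ^ 2) ≤
        |K| * (1 + ‖(q : ℝ) • w‖ ^ 2) * (‖d‖ ^ 2 + ‖(q : ℝ) • g‖ ^ 2) := by
      gcongr
      exact le_abs_self K
    have h8 : |K| * (1 + ‖(q : ℝ) • w‖ ^ 2) * (‖d‖ ^ 2 + ‖(q : ℝ) • g‖ ^ 2) ≤
        |K| * (1 + ‖(q : ℝ) • w‖ ^ 2) * (ρ ^ 2 / T ^ 2 + ρ ^ 2 / T ^ 2) := by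
      gcongr
    have h9 : ‖(q : ℝ) • w‖ ^ 2 = (q : ℝ) ^ 2 * ‖w‖ ^ 2 := by
      rw [norm_smul, Real.norm_of_nonneg hq'.le, mul_pow]
    calc _ ≤ _ := h7
      _ ≤ _ := h8
      _ = _ := by
        rw [h9]
        ring
  have h10 := div_le_div_of_nonneg_right (h3.trans h4) hq'.le
  have e1 : (Lq q L (x + d) (w + g) t - ⟪c, w + g⟫ + e / q) +
      (Lq q L (x - d) (w - g) t - ⟪c, w - g⟫ + e / q) =
      (L (x + d) ((q : ℝ) • w + (q : ℝ) • g) 0 + L (x - d) ((q : ℝ) • w - (q : ℝ) • g) 0 -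
        2 * L x ((q : ℝ) • w) 0) / q + 2 * (Lq q L x w t - ⟪c, w⟫ + e / q) := by
    unfold Lq
    rw [smul_add, smul_sub, inner_add_right, inner_sub_right (𝕜 := ℝ) c w g]
    ring
  have e2 : 2 * |K| * ρ ^ 2 / T ^ 2 * (1 / q + (q : ℝ) * ‖w‖ ^ 2) =
      2 * |K| * ρ ^ 2 / T ^ 2 * (1 + (q : ℝ) ^ 2 * ‖w‖ ^ 2) / q := by
    have : (1 / q + (q : ℝ) * ‖w‖ ^ 2) = (1 + (q : ℝ) ^ 2 * ‖w‖ ^ 2) / q := by
      field_simp
    rw [this]
    ring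
  rw [e1, e2]
  linarith

/-- The two shifted curves. -/
private theorem sem_step {L : E n → E n → ℝ → ℝ} {κ K : ℝ} (hL : Growth L κ K) {q : ℕ}
    (hq : 0 < q) (c : E n) (e : ℝ) {k : ℕ} (hk : 0 < k) (hkq : k ≤ q) (ξ₀ ξ₁ : E n) (ρ : ℝ)
    (hρ : ρ ≤ (k : ℝ) / q) (h0 : ‖ξ₀‖ ≤ ρ) (h1 : ‖ξ₁‖ ≤ ρ) (h01 : ‖ξ₁ - ξ₀‖ ≤ ρ)
    {γ : ℝ → E n} {r : ℝ} (hγ : Crv (Lq q L) c (e / q) k γ r) :
    ∃ (δ : ℝ → E n) (p m : ℝ), δ 0 = ξ₀ ∧ δ k = ξ₁ ∧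
      Crv (Lq q L) c (e / q) k (fun t => γ t + δ t) p ∧
      Crv (Lq q L) c (e / q) k (fun t => γ t - δ t) m ∧
      p + m ≤ 2 * r + 2 * |K| * ρ ^ 2 / ((k : ℝ) / q) ^ 2 * ((k : ℝ) / q + 2 / κ *
        (r + |K + ‖c‖ ^ 2 / (2 * κ) - e| * ((k : ℝ) / q))) := by
  obtain ⟨K', hM⟩ := growth_q hL hq
  have hκ := hL.pos
  have hq' : (0 : ℝ) < (q : ℝ) := Nat.cast_pos.2 hq
  have hk' : (0 : ℝ) < (k : ℝ) := Nat.cast_pos.2 hk
  have hρ0 : 0 ≤ ρ := (norm_nonneg _).trans h0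
  obtain ⟨T, hTd⟩ : ∃ T : ℝ, T = (k : ℝ) / q := ⟨_, rfl⟩
  have hT : 0 < T := by
    rw [hTd]
    positivity
  have hT1 : T ≤ 1 := by
    rw [hTd, div_le_one hq']
    exact_mod_cast hkq
  rw [← hTd] at hρ
  rw [← hTd]
  obtain ⟨g, hgd⟩ : ∃ g : E n, g = (k : ℝ)⁻¹ • (ξ₁ - ξ₀) := ⟨_, rfl⟩
  obtain ⟨δ, hδd⟩ : ∃ δ : ℝ → E n, δ = fun t => ξ₀ + t • g := ⟨_, rfl⟩
  have hg : ‖(q : ℝ) • g‖ ≤ ρ / T := by
    rw [hgd, smul_smul, norm_smul, hTd, norm_mul, norm_inv, Real.norm_of_nonneg hq'.le,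
      Real.norm_of_nonneg hk'.le]
    have h2 : ρ / ((k : ℝ) / q) = (q : ℝ) * (k : ℝ)⁻¹ * ρ := by
      field_simp
    rw [h2]
    exact mul_le_mul_of_nonneg_left h01 (by positivity)
  have hδ : ∀ t, HasDerivAt δ g t := by
    intro t
    have h3 := ((hasDerivAt_id t).smul_const g).const_add ξ₀
    rw [hδd]
    simpa using h3
  have hδn : ∀ t ∈ Set.Icc (0 : ℝ) k, ‖δ t‖ ≤ ρ := by
    intro t ht
    have h4 : 0 ≤ t / k := div_nonneg ht.1 hk'.le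
    have h5 : t / k ≤ 1 := by
      rw [div_le_one hk']
      exact ht.2
    have h3 : δ t = (1 - t / k) • ξ₀ + (t / k) • ξ₁ := by
      rw [hδd, hgd]
      simp only [smul_smul]
      rw [← div_eq_mul_inv]
      module
    rw [h3]
    calc ‖(1 - t / k) • ξ₀ + (t / k) • ξ₁‖ ≤ ‖(1 - t / k) • ξ₀‖ + ‖(t / k) • ξ₁‖ := norm_add_le _ _
      _ = (1 - t / k) * ‖ξ₀‖ + (t / k) * ‖ξ₁‖ := by
        rw [norm_smul, norm_smul, Real.norm_of_nonneg (by linarith), Real.norm_of_nonneg h4]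
      _ ≤ (1 - t / k) * ρ + (t / k) * ρ := by
        have h6 : 0 ≤ 1 - t / k := by linarith
        gcongr
      _ = ρ := by ring
  have hδ0 : δ 0 = ξ₀ := by
    rw [hδd]
    simp
  have hδk : δ k = ξ₁ := by
    rw [hδd, hgd]
    simp only [smul_smul]
    rw [mul_inv_cancel₀ hk'.ne', one_smul]
    abel
  have hδac : AbsolutelyContinuousOnInterval δ 0 k := by
    have h3 : ContDiff ℝ 1 δ := by
      rw [hδd]
      fun_prop
    exact h3.contDiffOn.absolutelyContinuousOnInterval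
  have hγac := hγ.ac
  have hpac : AbsolutelyContinuousOnInterval (fun t => γ t + δ t) 0 k := hγac.add hδac
  have hmac : AbsolutelyContinuousOnInterval (fun t => γ t - δ t) 0 k := hγac.sub hδac
  have hI : Integrable (fun t => Lq q L (γ t) (deriv γ t) t - ⟪c, deriv γ t⟫ + e / q)
      (volume.restrict (Set.Ioc (0 : ℝ) k)) := by
    have h3 := hγ.int
    rw [intervalIntegrable_iff_integrableOn_Ioc_of_le hk'.le] at h3
    exact h3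
  have hV0 := (crv_lb hM hγ).1
  have hV : Integrable (fun t => ‖deriv γ t‖ ^ 2) (volume.restrict (Set.Ioc (0 : ℝ) k)) := by
    have h3 := hV0
    rw [intervalIntegrable_iff_integrableOn_Ioc_of_le hk'.le] at h3
    exact h3
  have hreq : r = ∫ t in Set.Ioc (0 : ℝ) k,
      (Lq q L (γ t) (deriv γ t) t - ⟪c, deriv γ t⟫ + e / q) := by
    have h3 := hγ.eq
    rw [intervalIntegral.integral_of_le hk'.le] at h3
    exact h3
  have hsum : ∀ᵐ t ∂(volume.restrict (Set.Ioc (0 : ℝ) k)),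
      (Lq q L (γ t + δ t) (deriv (fun t => γ t + δ t) t) t -
          ⟪c, deriv (fun t => γ t + δ t) t⟫ + e / q) +
        (Lq q L (γ t - δ t) (deriv (fun t => γ t - δ t) t) t -
          ⟪c, deriv (fun t => γ t - δ t) t⟫ + e / q) ≤
      2 * (Lq q L (γ t) (deriv γ t) t - ⟪c, deriv γ t⟫ + e / q) +
        2 * |K| * ρ ^ 2 / T ^ 2 * (1 / q + (q : ℝ) * ‖deriv γ t‖ ^ 2) := by
    rw [ae_restrict_iff' measurableSet_Ioc]
    filter_upwards [ac_diff hγac] with t ht hti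
    have htI : t ∈ Set.Icc (0 : ℝ) k := Set.Ioc_subset_Icc_self hti
    have hd : DifferentiableAt ℝ γ t := ht (by rwa [Set.uIcc_of_le hk'.le])
    have hp : deriv (fun t => γ t + δ t) t = deriv γ t + g :=
      (hd.hasDerivAt.add (hδ t)).deriv
    have hm : deriv (fun t => γ t - δ t) t = deriv γ t - g :=
      (hd.hasDerivAt.sub (hδ t)).deriv
    rw [hp, hm]
    exact sem_sc hL hq c e (γ t) (deriv γ t) (δ t) g t ρ T hT hT1 hρ (hδn t htI) hg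
  obtain ⟨b, hb⟩ : ∃ b : ℝ, b = (K + ‖c‖ ^ 2 / (2 * κ) - e) / q := ⟨_, rfl⟩
  have hlow : ∀ (x w : E n) (t : ℝ), -b ≤ Lq q L x w t - ⟪c, w⟫ + e / q := by
    intro x w t
    have h3 := sem_low hL hq c e x w t
    rw [← hb] at h3
    have h4 : 0 ≤ κ / 2 * ((q : ℝ) * ‖w‖ ^ 2) := by positivity
    linarith
  have hG : Integrable (fun t => 2 * |K| * ρ ^ 2 / T ^ 2 * (1 / q + (q : ℝ) * ‖deriv γ t‖ ^ 2))
      (volume.restrict (Set.Ioc (0 : ℝ) k)) :=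
    ((integrable_const (1 / (q : ℝ))).add (hV.const_mul (q : ℝ))).const_mul _
  have hup : Integrable (fun t => 2 * (Lq q L (γ t) (deriv γ t) t - ⟪c, deriv γ t⟫ + e / q) +
      2 * |K| * ρ ^ 2 / T ^ 2 * (1 / q + (q : ℝ) * ‖deriv γ t‖ ^ 2))
      (volume.restrict (Set.Ioc (0 : ℝ) k)) :=
    (hI.const_mul 2).add hG
  have hIp : Integrable (fun t => Lq q L (γ t + δ t) (deriv (fun t => γ t + δ t) t) t -
      ⟪c, deriv (fun t => γ t + δ t) t⟫ + e / q) (volume.restrict (Set.Ioc (0 : ℝ) k)) := by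
    refine integrable_of_le_of_le (g₁ := fun _ => -b)
      (g₂ := fun t => (2 * (Lq q L (γ t) (deriv γ t) t - ⟪c, deriv γ t⟫ + e / q) +
      2 * |K| * ρ ^ 2 / T ^ 2 * (1 / q + (q : ℝ) * ‖deriv γ t‖ ^ 2)) + b)
      (sem_meas hM c (e / q) hpac) ?_ ?_ (integrable_const _) (hup.add (integrable_const _))
    · exact Eventually.of_forall fun t => hlow _ _ t
    · filter_upwards [hsum] with t ht
      have h3 := hlow (γ t - δ t) (deriv (fun t => γ t - δ t) t) t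
      linarith
  have hIm : Integrable (fun t => Lq q L (γ t - δ t) (deriv (fun t => γ t - δ t) t) t -
      ⟪c, deriv (fun t => γ t - δ t) t⟫ + e / q) (volume.restrict (Set.Ioc (0 : ℝ) k)) := by
    refine integrable_of_le_of_le (g₁ := fun _ => -b)
      (g₂ := fun t => (2 * (Lq q L (γ t) (deriv γ t) t - ⟪c, deriv γ t⟫ + e / q) +
      2 * |K| * ρ ^ 2 / T ^ 2 * (1 / q + (q : ℝ) * ‖deriv γ t‖ ^ 2)) + b)
      (sem_meas hM c (e / q) hmac) ?_ ?_ (integrable_const _) (hup.add (integrable_const _))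
    · exact Eventually.of_forall fun t => hlow _ _ t
    · filter_upwards [hsum] with t ht
      have h3 := hlow (γ t + δ t) (deriv (fun t => γ t + δ t) t) t
      linarith
  refine ⟨δ, ∫ t in Set.Ioc (0 : ℝ) k, (Lq q L (γ t + δ t) (deriv (fun t => γ t + δ t) t) t -
      ⟪c, deriv (fun t => γ t + δ t) t⟫ + e / q),
    ∫ t in Set.Ioc (0 : ℝ) k, (Lq q L (γ t - δ t) (deriv (fun t => γ t - δ t) t) t -
      ⟪c, deriv (fun t => γ t - δ t) t⟫ + e / q), hδ0, hδk, ⟨hpac, ?_, ?_⟩, ⟨hmac, ?_, ?_⟩, ?_⟩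
  · rw [intervalIntegrable_iff_integrableOn_Ioc_of_le hk'.le]
    exact hIp
  · rw [intervalIntegral.integral_of_le hk'.le]
  · rw [intervalIntegrable_iff_integrableOn_Ioc_of_le hk'.le]
    exact hIm
  · rw [intervalIntegral.integral_of_le hk'.le]
  · have h3 := integral_mono_ae (hIp.add hIm) hup hsum
    rw [integral_add' hIp hIm, integral_add (hI.const_mul 2) hG, integral_const_mul,
      integral_const_mul, ← hreq] at h3
    have hvol : (volume.restrict (Set.Ioc (0 : ℝ) (k : ℝ))).real Set.univ = k := by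
      simp [Measure.real]
    have h4 : ∫ t in Set.Ioc (0 : ℝ) k, (1 / (q : ℝ) + (q : ℝ) * ‖deriv γ t‖ ^ 2) =
        T + (q : ℝ) * ∫ t in Set.Ioc (0 : ℝ) k, ‖deriv γ t‖ ^ 2 := by
      rw [integral_add (integrable_const _) (hV.const_mul _), integral_const, hvol,
        integral_const_mul, hTd, smul_eq_mul, mul_one_div]
    rw [h4] at h3
    have h5 : (q : ℝ) * ∫ t in Set.Ioc (0 : ℝ) k, ‖deriv γ t‖ ^ 2 ≤
        2 / κ * (r + |K + ‖c‖ ^ 2 / (2 * κ) - e| * T) := by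
      have h6 : ∫ t in Set.Ioc (0 : ℝ) k, (κ / 2 * ((q : ℝ) * ‖deriv γ t‖ ^ 2) - b) ≤ r := by
        rw [hreq]
        refine integral_mono (((hV.const_mul _).const_mul _).sub (integrable_const _)) hI ?_
        intro t
        have h7 := sem_low hL hq c e (γ t) (deriv γ t) t
        rw [← hb] at h7
        exact h7
      rw [integral_sub ((hV.const_mul _).const_mul _) (integrable_const _), integral_const, hvol,
        integral_const_mul, integral_const_mul, smul_eq_mul] at h6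
      have h8 : (k : ℝ) * b ≤ |K + ‖c‖ ^ 2 / (2 * κ) - e| * T := by
        rw [hb, hTd]
        have h9 := le_abs_self (K + ‖c‖ ^ 2 / (2 * κ) - e)
        have h10 := mul_le_mul_of_nonneg_right h9 (by positivity : 0 ≤ (k : ℝ) / q)
        calc (k : ℝ) * ((K + ‖c‖ ^ 2 / (2 * κ) - e) / q) =
            (K + ‖c‖ ^ 2 / (2 * κ) - e) * ((k : ℝ) / q) := by ring
          _ ≤ _ := h10
      rw [div_mul_eq_mul_div, le_div_iff₀ hκ]
      linarith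
    refine h3.trans ?_
    have h11 : 0 ≤ 2 * |K| * ρ ^ 2 / T ^ 2 := by positivity
    have h12 := mul_le_mul_of_nonneg_left (add_le_add_right h5 T) h11
    linarith

theorem semi_k {L : E n → E n → ℝ → ℝ} {κ K : ℝ} (hL : Growth L κ K) {q : ℕ} (hq : 0 < q)
    (c : E n) (e : ℝ) {k : ℕ} (hk : 0 < k) (hkq : k ≤ q) (f : ℕ → E n) (ξ₀ ξ₁ : E n) (ρ : ℝ)
    (hρ : ρ ≤ (k : ℝ) / q) (h0 : ‖ξ₀‖ ≤ ρ) (h1 : ‖ξ₁‖ ≤ ρ) (h01 : ‖ξ₁ - ξ₀‖ ≤ ρ) (ε : ℝ)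
    (hε : 0 < ε) :
    ∃ f₁ f₂ : ℕ → E n, f₁ 0 = f 0 + ξ₀ ∧ f₁ k = f k + ξ₁ ∧ f₂ 0 = f 0 - ξ₀ ∧ f₂ k = f k - ξ₁ ∧
      cost (Sp (Lq q L) c (e / q)) f₁ k + cost (Sp (Lq q L) c (e / q)) f₂ k ≤
        2 * cost (Sp (Lq q L) c (e / q)) f k +
          2 * |K| * ρ ^ 2 / ((k : ℝ) / q) ^ 2 * ((k : ℝ) / q + 2 / κ *
            (cost (Sp (Lq q L) c (e / q)) f k + |K + ‖c‖ ^ 2 / (2 * κ) - e| * ((k : ℝ) / q) + ε)) +
          ε := by
  obtain ⟨K', hM⟩ := growth_q hL hq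
  have hκ := hL.pos
  have hk' : (0 : ℝ) < (k : ℝ) := Nat.cast_pos.2 hk
  -- almost optimal curves
  have hopt : ∀ i : ℕ, ∃ (γ : ℝ → E n) (r : ℝ), Crv (Lq q L) c (e / q) 1 γ r ∧ γ 0 = f i ∧
      γ 1 = f (i + 1) ∧ r < Sp (Lq q L) c (e / q) (f i) (f (i + 1)) + ε / (2 * k) := by
    intro i
    have h2 : sInf (acts (Lq q L) c (e / q) (f i) (f (i + 1))) <
        Sp (Lq q L) c (e / q) (f i) (f (i + 1)) + ε / (2 * k) := by
      have h3 : 0 < ε / (2 * k) := by positivity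
      unfold Sp
      linarith
    obtain ⟨r, ⟨γ, hγ, ha, hb⟩, hr⟩ := exists_lt_of_csInf_lt
      (acts_nonempty hM c (e / q) (f i) (f (i + 1))) h2
    exact ⟨γ, r, hγ, ha, hb, hr⟩
  choose γs rs hγs hγ0 hγ1 hrs using hopt
  obtain ⟨γ, hγ, hg0, hgk⟩ := crv_chain hM.per k f γs rs (fun i _ => hγs i) (fun i _ => hγ0 i)
    (fun i _ => hγ1 i)
  obtain ⟨r, hr⟩ : ∃ r : ℝ, r = ∑ i ∈ Finset.range k, rs i := ⟨_, rfl⟩
  rw [← hr] at hγ
  have hrc : r ≤ cost (Sp (Lq q L) c (e / q)) f k + ε / 2 := by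
    have h2 : ∑ i ∈ Finset.range k, rs i ≤ ∑ i ∈ Finset.range k,
        (Sp (Lq q L) c (e / q) (f i) (f (i + 1)) + ε / (2 * k)) :=
      Finset.sum_le_sum fun i _ => (hrs i).le
    rw [Finset.sum_add_distrib, Finset.sum_const, Finset.card_range, nsmul_eq_mul] at h2
    have h3 : (k : ℝ) * (ε / (2 * k)) = ε / 2 := by
      field_simp
    rw [h3] at h2
    rw [hr]
    exact h2
  obtain ⟨δ, p, m, hδ0, hδk, hp, hm, hpm⟩ := sem_step hL hq c e hk hkq ξ₀ ξ₁ ρ hρ h0 h1 h01 hγ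
  have hbdd : ∀ x' y' : E n, BddBelow (acts (Lq q L) c (e / q) x' y') := fun x' y' =>
    ⟨κ / 2 * ‖y' - x'‖ ^ 2 - (K' + ‖c‖ ^ 2 / (2 * κ) - e / q),
      fun r hr => acts_ge hM c (e / q) x' y' hr⟩
  have hcut : ∀ (ζ : ℝ → E n) (s : ℝ), Crv (Lq q L) c (e / q) k ζ s →
      cost (Sp (Lq q L) c (e / q)) (fun i : ℕ => ζ i) k ≤ s := by
    intro ζ s hζ
    obtain ⟨η, u, hηu, hs⟩ := crv_cut hM.per hζ
    rw [hs]
    unfold cost
    refine Finset.sum_le_sum fun i hi => ?_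
    obtain ⟨ha, hb, hc⟩ := hηu i (Finset.mem_range.1 hi)
    exact csInf_le (hbdd _ _) ⟨η i, ha, hb, hc⟩
  have hc1 := hcut _ _ hp
  have hc2 := hcut _ _ hm
  refine ⟨fun i : ℕ => γ i + δ i, fun i : ℕ => γ i - δ i, ?_, ?_, ?_, ?_, ?_⟩
  · simp only [Nat.cast_zero]
    rw [hg0, hδ0]
  · simp only []
    rw [hgk, hδk]
  · simp only [Nat.cast_zero]
    rw [hg0, hδ0]
  · simp only []
    rw [hgk, hδk]
  · have h2 : 0 ≤ 2 * |K| * ρ ^ 2 / ((k : ℝ) / q) ^ 2 := by positivity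
    have h3 : (k : ℝ) / q + 2 / κ * (r + |K + ‖c‖ ^ 2 / (2 * κ) - e| * ((k : ℝ) / q)) ≤
        (k : ℝ) / q + 2 / κ * (cost (Sp (Lq q L) c (e / q)) f k +
          |K + ‖c‖ ^ 2 / (2 * κ) - e| * ((k : ℝ) / q) + ε) := by
      have h4 : 0 ≤ 2 / κ := by positivity
      have h5 : r + |K + ‖c‖ ^ 2 / (2 * κ) - e| * ((k : ℝ) / q) ≤
          cost (Sp (Lq q L) c (e / q)) f k +
          |K + ‖c‖ ^ 2 / (2 * κ) - e| * ((k : ℝ) / q) + ε := by linarith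
      have h6 := mul_le_mul_of_nonneg_left h5 h4
      linarith
    have h4 := mul_le_mul_of_nonneg_left h3 h2
    linarith

end Pool.Agent.H68.HDA
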