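import Pool.Agent.H68.HDA.Base
import Pool.Agent.H68.HDA.Sem
import Pool.Agent.H68.HDA.Spe

/-!
# Module ClS: closing costs, short times
`k = j - i ≤ q`, `T = k/q`, `e' = y i + zv z - y j`, `‖e'‖ ≤ T`. `semi_k` for `f l = y (i + l)` with `ξ₀ = 0`, `ξ₁ = e'`, `ρ = ‖e'‖`: chains `F±` from `y i` to `y j ± e'`; for `f l = y (j + l)` with
`ξ₀ = e'`, `ξ₁ = 0`: chains `G±` from `y j ± e'` to `y (j+k)`. The costs of `f` are `u (y j) - u (y i) ≤ C T`, `u (y (j+k)) - u (y j) ≤ C T` (`chain_short`), so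
the errors are `≤ C' ‖e'‖²/T + ε'`. `F- + G- ≥ u (y (j+k)) - u (y i)` and `G+ ≥ u (y (j+k)) - u (y j + e') = u (y (j+k)) - u (y i)` (sum of `hu.sub` along the chains), so `F+ ≤ 2 (C' ‖e'‖²/T + ε')`.
-/

set_option autoImplicit false

open MeasureTheory Filter
open scoped RealInnerProductSpace

namespace Pool.Agent.H68.HDA

open Pool.Agent.H33.AM (E Tor pr IsPeriodic)
open Pool.Agent.H68.HD

variable {n : ℕ}

private theorem cost_cal {S : E n → E n → ℝ} {u : E n → ℝ} {y : ℕ → E n} (hu : Cal S u y)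
    (m k : ℕ) : cost S (fun l => y (m + l)) k = u (y (m + k)) - u (y m) := by
  unfold cost
  have h1 : ∀ l ∈ Finset.range k, S ((fun l => y (m + l)) l) ((fun l => y (m + l)) (l + 1)) =
      u (y (m + (l + 1))) - u (y (m + l)) := fun l _ => hu.cal (m + l)
  rw [Finset.sum_congr rfl h1, Finset.sum_range_sub (fun l => u (y (m + l)))]
  simp

private theorem cost_ge_sub {S : E n → E n → ℝ} {u : E n → ℝ} {y : ℕ → E n} (hu : Cal S u y)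
    (f : ℕ → E n) (k : ℕ) : u (f k) - u (f 0) ≤ cost S f k := by
  unfold cost
  rw [← Finset.sum_range_sub (fun l => u (f l))]
  exact Finset.sum_le_sum fun l _ => hu.sub _ _

theorem closing_short {L : E n → E n → ℝ → ℝ} {κ K : ℝ} (hL : Growth L κ K) (c : E n) (e : ℝ) :
    ∃ C : ℝ, 0 ≤ C ∧ ∀ q : ℕ, 0 < q → ∀ (u : E n → ℝ) (y : ℕ → E n),
      Cal (Sp (Lq q L) c (e / q)) u y → ∀ (i j : ℕ) (z : Fin n → ℤ), i < j → j - i ≤ q →
      ‖y i + zv z - y j‖ ≤ ((j - i : ℕ) : ℝ) / q → ∀ ε : ℝ, 0 < ε →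
      ∃ g, Cl g (j - i) z ∧ cost (Sp (Lq q L) c (e / q)) g (j - i) ≤
        C * ‖y i + zv z - y j‖ ^ 2 / (((j - i : ℕ) : ℝ) / q) + ε := by
  obtain ⟨C₁, hC₁, hch⟩ := chain_short hL c e
  have hκ := hL.pos
  have hK₁ : 0 ≤ |K + ‖c‖ ^ 2 / (2 * κ) - e| := abs_nonneg _
  refine ⟨4 * |K| * (1 + 2 / κ * (C₁ + |K + ‖c‖ ^ 2 / (2 * κ) - e| + 1)), by positivity, ?_⟩
  intro q hq u y hu i j z hij hjq hE ε hε
  obtain ⟨k, rfl⟩ : ∃ k, j = i + k := ⟨j - i, by omega⟩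
  have hk : 0 < k := by omega
  rw [Nat.add_sub_cancel_left] at hjq hE ⊢
  generalize hK₂ : |K + ‖c‖ ^ 2 / (2 * κ) - e| = K₁ at hK₁ ⊢
  have hqr : (0 : ℝ) < q := by exact_mod_cast hq
  have hkr : (0 : ℝ) < k := by exact_mod_cast hk
  have hT : 0 < (k : ℝ) / q := div_pos hkr hqr
  obtain ⟨ε', hε', hε1, hε2⟩ : ∃ ε' : ℝ, 0 < ε' ∧ ε' ≤ ε / 2 ∧ ε' ≤ (k : ℝ) / q :=
    ⟨min (ε / 2) ((k : ℝ) / q), lt_min (by linarith) hT, min_le_left _ _, min_le_right _ _⟩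
  obtain ⟨f₁, f₂, a1, a2, a3, a4, a5⟩ := semi_k hL hq c e hk hjq (fun l => y (i + l)) 0
    (y i + zv z - y (i + k)) ‖y i + zv z - y (i + k)‖ hE (by simp) le_rfl (by simp) ε' hε'
  obtain ⟨g₁, g₂, b1, b2, b3, b4, b5⟩ := semi_k hL hq c e hk hjq (fun l => y (i + k + l))
    (y i + zv z - y (i + k)) 0 ‖y i + zv z - y (i + k)‖ hE le_rfl (by simp)
    (by rw [zero_sub, norm_neg]) ε' hε'
  rw [hK₂] at a5 b5
  rw [cost_cal hu] at a5 b5
  have sA := (hch q hq u y hu i k hk).2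
  have sB := (hch q hq u y hu (i + k) k hk).2
  generalize hTd : (k : ℝ) / q = T at hE hT hε2 a5 b5 sA sB ⊢
  generalize hEd : ‖y i + zv z - y (i + k)‖ = R at hE a5 b5 ⊢
  have hErr : ∀ r, r ≤ C₁ * T → 2 * |K| * R ^ 2 / T ^ 2 * (T + 2 / κ * (r + K₁ * T + ε')) ≤
      2 * |K| * (1 + 2 / κ * (C₁ + K₁ + 1)) * R ^ 2 / T := by
    intro r hr
    have h1 : r + K₁ * T + ε' ≤ (C₁ + K₁ + 1) * T := by linarith
    have h2 := mul_le_mul_of_nonneg_left h1 (by positivity : 0 ≤ 2 / κ)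
    have h3 : T + 2 / κ * (r + K₁ * T + ε') ≤ (1 + 2 / κ * (C₁ + K₁ + 1)) * T := by linarith
    calc 2 * |K| * R ^ 2 / T ^ 2 * (T + 2 / κ * (r + K₁ * T + ε'))
        ≤ 2 * |K| * R ^ 2 / T ^ 2 * ((1 + 2 / κ * (C₁ + K₁ + 1)) * T) :=
          mul_le_mul_of_nonneg_left h3 (by positivity)
      _ = 2 * |K| * (1 + 2 / κ * (C₁ + K₁ + 1)) * R ^ 2 / T := by
          field_simp
  have eA := hErr _ sA
  have eB := hErr _ sB
  have hclose : y (i + k) + (y i + zv z - y (i + k)) = y i + zv z := by abel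
  have l1 := cost_ge_sub hu f₂ k
  have l2 := cost_ge_sub hu g₂ k
  have l3 := cost_ge_sub hu g₁ k
  rw [a3, a4] at l1
  rw [b3, b4] at l2
  rw [b1, b2] at l3
  simp only [add_zero, sub_zero] at a1 a2 l1 l2 l3
  rw [hclose] at a2
  rw [hclose, hu.per] at l3
  refine ⟨f₁, ⟨hk, by rw [a1, a2]⟩, ?_⟩
  have h4 : 4 * |K| * (1 + 2 / κ * (C₁ + K₁ + 1)) * R ^ 2 / T =
      2 * |K| * (1 + 2 / κ * (C₁ + K₁ + 1)) * R ^ 2 / T +
        2 * |K| * (1 + 2 / κ * (C₁ + K₁ + 1)) * R ^ 2 / T := by ring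
  rw [h4]
  linarith

end Pool.Agent.H68.HDA
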