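import Pool.Agent.H68.HDA.Base

/-!
# Module Def: the rotation defect for real times
`w = zv z - T • h`. LONG (`T ≥ 1`): for `‖p‖ ≤ p₀`: `⟪p, w⟫ ≤ C e² + T K' ‖p‖²`. If `‖w‖ ≤ 2 K' T p₀`: `p = w/(2 K' T)`, `‖w‖² ≤ 4 C K' T e²`; otherwise `K' p₀² ≤ T K' p₀² < C e²`, excluded by
`C e₁² < K' p₀²`. If `z = 0`: `T γ ≤ ‖w‖ ≤ 2 √(C K' T) e`, excluded by `2 √(C K') e₁ < γ`. So `z ≠ 0` and `γ ≤ 2 √(C K') T^(τ+1/2) e`, `c₁ = (γ/(2√(CK')))^s` (`C > 0` here; take e.g.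
`C + 1` in place of `C`). SHORT (`T ≤ 1`, `e ≤ T`): `⟪p, w⟫ ≤ C e²/T + T K' ‖p‖²`. If `‖w‖ ≤ 2 K' T p₀`: `‖w‖² ≤ 4 C K' e²`; `z ≠ 0` is excluded by `2 √(C K') e₁ < γ`; `z = 0`:
`T γ ≤ T ‖h‖ ≤ 2 √(C K') e`. Otherwise `p = (p₀/‖w‖) w`: `T K' p₀² < C e²/T`, so `T ≤ √(C/(K' p₀²)) e`.
-/

set_option autoImplicit false

open MeasureTheory Filter
open scoped RealInnerProductSpace

namespace Pool.Agent.H68.HDA

open Pool.Agent.H33.AM (E Tor pr IsPeriodic)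
open Pool.Agent.H68.HD

variable {n : ℕ}

private theorem core {K' p₀ T B : ℝ} (hp : 0 < p₀) (hK : 0 < K') (hT : 0 < T) (w : E n)
    (H : ∀ p : E n, ‖p‖ ≤ p₀ → ⟪p, w⟫ ≤ B + T * K' * ‖p‖ ^ 2) :
    ‖w‖ ^ 2 ≤ 4 * B * K' * T ∨ T * K' * p₀ ^ 2 ≤ B := by
  have hKT : 0 < 2 * K' * T := by positivity
  by_cases hw : ‖w‖ ≤ 2 * K' * T * p₀
  · left
    have h1 : ‖(1 / (2 * K' * T)) • w‖ ≤ p₀ := by
      rw [norm_smul, Real.norm_of_nonneg (by positivity), one_div, inv_mul_le_iff₀ hKT]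
      exact hw
    have h2 := H _ h1
    rw [norm_smul, Real.norm_of_nonneg (by positivity), real_inner_smul_left,
      real_inner_self_eq_norm_sq] at h2
    have h3 : 1 / (2 * K' * T) * ‖w‖ ^ 2 = 2 * (‖w‖ ^ 2 / (4 * K' * T)) := by
      field_simp
      ring
    have h4 : T * K' * (1 / (2 * K' * T) * ‖w‖) ^ 2 = ‖w‖ ^ 2 / (4 * K' * T) := by
      field_simp
      ring
    rw [h3, h4] at h2
    have h5 : ‖w‖ ^ 2 / (4 * K' * T) ≤ B := by linarith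
    rw [div_le_iff₀ (by positivity)] at h5
    linarith
  · right
    push Not at hw
    have hw0 : 0 < ‖w‖ := lt_trans (by positivity) hw
    have h1 : ‖(p₀ / ‖w‖) • w‖ = p₀ := by
      rw [norm_smul, Real.norm_of_nonneg (by positivity)]
      field_simp
    have h2 := H _ h1.le
    rw [h1, real_inner_smul_left, real_inner_self_eq_norm_sq] at h2
    have h3 : p₀ / ‖w‖ * ‖w‖ ^ 2 = p₀ * ‖w‖ := by
      field_simp
    rw [h3] at h2
    have h4 : p₀ * (2 * K' * T * p₀) < p₀ * ‖w‖ := mul_lt_mul_of_pos_left hw hp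
    nlinarith

private theorem exists_small {a b c d : ℝ} (hc : 0 ≤ c) (hd : 0 ≤ d) (ha : 0 < a) (hb : 0 < b) :
    ∃ e₁ : ℝ, 0 < e₁ ∧ c * e₁ ^ 2 < a ∧ d * e₁ ^ 2 < b := by
  have hm : 0 < min a b := lt_min ha hb
  have hD : 0 < 2 * (1 + c + d) := by positivity
  refine ⟨min 1 (min a b / (2 * (1 + c + d))), lt_min one_pos (by positivity), ?_⟩
  set e₁ := min 1 (min a b / (2 * (1 + c + d))) with he
  have h0 : 0 < e₁ := lt_min one_pos (by positivity)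
  have h1 : e₁ ≤ 1 := min_le_left _ _
  have h2 : e₁ ≤ min a b / (2 * (1 + c + d)) := min_le_right _ _
  rw [le_div_iff₀ hD] at h2
  have h3 : e₁ ^ 2 ≤ e₁ := by nlinarith
  have h4 : min a b ≤ a := min_le_left _ _
  have h5 : min a b ≤ b := min_le_right _ _
  have h6 : 0 ≤ c * e₁ := by positivity
  have h7 : 0 ≤ d * e₁ := by positivity
  constructor
  · have : c * e₁ ^ 2 ≤ c * e₁ := mul_le_mul_of_nonneg_left h3 hc
    nlinarith
  · have : d * e₁ ^ 2 ≤ d * e₁ := mul_le_mul_of_nonneg_left h3 hd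
    nlinarith

theorem defect {C K' p₀ γ τ : ℝ} (hC : 0 ≤ C) (hp : 0 < p₀) (hK : 0 < K') (hγ : 0 < γ)
    (hτ : 0 ≤ τ) {Q : E n → ℝ} {h : E n}
    (hQ : ∀ p, ‖p‖ ≤ p₀ → Q p ≤ ⟪h, p⟫ + K' * ‖p‖ ^ 2) (hh : γ ≤ ‖h‖)
    (hd : ∀ (T : ℝ) (z : Fin n → ℤ), z ≠ 0 → 1 ≤ T → γ * T ^ (-τ) ≤ ‖zv z - T • h‖)
    (hd' : ∀ (T : ℝ) (z : Fin n → ℤ), z ≠ 0 → 0 ≤ T → T ≤ 1 → γ ≤ ‖zv z - T • h‖) :
    ∃ c₁ e₁ C₁ : ℝ, 0 < c₁ ∧ 0 < e₁ ∧ 0 < C₁ ∧ ∀ (T e : ℝ) (z : Fin n → ℤ), 0 < T → 0 ≤ e →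
      e ≤ e₁ →
      (1 ≤ T → (∀ p, ⟪p, zv z⟫ - T * Q p ≤ C * e ^ 2) → c₁ ≤ T * e ^ (2 / (1 + 2 * τ))) ∧
      (T ≤ 1 → e ≤ T → (∀ p, ⟪p, zv z⟫ - T * Q p ≤ C * e ^ 2 / T) → T ≤ C₁ * e) := by
  obtain ⟨e₁, he0, he1, he2⟩ := exists_small (a := K' * p₀ ^ 2) (b := γ ^ 2) (c := C)
    (d := 4 * C * K') hC (by positivity) (by positivity) (by positivity)
  have hs : 0 < 1 + 2 * τ := by linarith
  have hD : 0 < 4 * C * K' + 1 := by positivity
  refine ⟨(γ ^ 2 / (4 * C * K' + 1)) ^ (1 / (1 + 2 * τ)), e₁,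
    1 + C / (K' * p₀ ^ 2) + 4 * C * K' / γ ^ 2, by positivity, he0, by positivity, ?_⟩
  intro T e z hT he hee
  have hsq : e ^ 2 ≤ e₁ ^ 2 := pow_le_pow_left₀ he hee 2
  -- the inequality for small `p`
  have key : ∀ B : ℝ, (∀ p, ⟪p, zv z⟫ - T * Q p ≤ B) → ∀ p : E n, ‖p‖ ≤ p₀ →
      ⟪p, zv z - T • h⟫ ≤ B + T * K' * ‖p‖ ^ 2 := by
    intro B hB p hpp
    have h1 := hB p
    have h2 := mul_le_mul_of_nonneg_left (hQ p hpp) hT.le
    rw [inner_sub_right, real_inner_smul_right, real_inner_comm h p] at *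
    nlinarith
  have hz0 : z = 0 → T ^ 2 * γ ^ 2 ≤ ‖zv z - T • h‖ ^ 2 := by
    rintro rfl
    rw [zv_zero, zero_sub, norm_neg, norm_smul, Real.norm_of_nonneg hT.le, mul_pow]
    exact mul_le_mul_of_nonneg_left (pow_le_pow_left₀ hγ.le hh 2) (by positivity)
  constructor
  · intro hT1 hB
    rcases core hp hK hT _ (key _ hB) with h1 | h1
    · by_cases hz : z = 0
      · exfalso
        have h2 := (hz0 hz).trans h1
        have h3 : T * (T * γ ^ 2) ≤ T * (4 * C * K' * e ^ 2) := by nlinarith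
        have h4 := le_of_mul_le_mul_left h3 hT
        have h5 : 4 * C * K' * e ^ 2 ≤ 4 * C * K' * e₁ ^ 2 :=
          mul_le_mul_of_nonneg_left hsq (by positivity)
        have h6 : γ ^ 2 ≤ T * γ ^ 2 := by nlinarith [sq_nonneg γ]
        linarith
      · have h2 := hd T z hz hT1
        have h3 : (γ * T ^ (-τ)) ^ 2 ≤ 4 * (C * e ^ 2) * K' * T :=
          (pow_le_pow_left₀ (by positivity) h2 2).trans h1
        have h4 : T ^ (1 + 2 * τ) * (T ^ (-τ)) ^ 2 = T := by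
          rw [← Real.rpow_natCast (T ^ (-τ)) 2, ← Real.rpow_mul hT.le, ← Real.rpow_add hT]
          have : 1 + 2 * τ + -τ * ((2 : ℕ) : ℝ) = 1 := by push_cast; ring
          rw [this, Real.rpow_one]
        have hT2 : 0 < T ^ (1 + 2 * τ) := Real.rpow_pos_of_pos hT _
        -- `γ² ≤ (4 C K' + 1) T^(1+2τ) e²`
        have h5 : γ ^ 2 / (4 * C * K' + 1) ≤ T ^ (1 + 2 * τ) * e ^ 2 := by
          rw [div_le_iff₀ hD]
          have h6 : T ^ (1 + 2 * τ) * ((γ * T ^ (-τ)) ^ 2) ≤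
              T ^ (1 + 2 * τ) * (4 * (C * e ^ 2) * K' * T) := mul_le_mul_of_nonneg_left h3 hT2.le
          have h7 : T ^ (1 + 2 * τ) * ((γ * T ^ (-τ)) ^ 2) = T * γ ^ 2 := by
            rw [mul_pow]
            calc T ^ (1 + 2 * τ) * (γ ^ 2 * (T ^ (-τ)) ^ 2)
                = (T ^ (1 + 2 * τ) * (T ^ (-τ)) ^ 2) * γ ^ 2 := by ring
              _ = T * γ ^ 2 := by rw [h4]
          rw [h7] at h6
          have h8 : T * γ ^ 2 ≤ T * (T ^ (1 + 2 * τ) * (4 * C * K' * e ^ 2)) := by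
            calc T * γ ^ 2 ≤ _ := h6
              _ = _ := by ring
          have h9 := le_of_mul_le_mul_left h8 hT
          have h10 : 0 ≤ T ^ (1 + 2 * τ) * e ^ 2 := by positivity
          nlinarith
        have h11 : (T ^ (1 + 2 * τ) * e ^ 2) ^ (1 / (1 + 2 * τ)) = T * e ^ (2 / (1 + 2 * τ)) := by
          rw [Real.mul_rpow hT2.le (by positivity), ← Real.rpow_mul hT.le,
            ← Real.rpow_natCast e 2, ← Real.rpow_mul he]
          have h12 : (1 + 2 * τ) * (1 / (1 + 2 * τ)) = 1 := by field_simp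
          have h13 : ((2 : ℕ) : ℝ) * (1 / (1 + 2 * τ)) = 2 / (1 + 2 * τ) := by push_cast; ring
          rw [h12, h13, Real.rpow_one]
        rw [← h11]
        exact Real.rpow_le_rpow (by positivity) h5 (by positivity)
    · exfalso
      have h2 : C * e ^ 2 ≤ C * e₁ ^ 2 := mul_le_mul_of_nonneg_left hsq hC
      have h3 : K' * p₀ ^ 2 ≤ T * K' * p₀ ^ 2 := by
        have : 0 ≤ K' * p₀ ^ 2 := by positivity
        nlinarith
      linarith
  · intro hT1 heT hB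
    have hC1 : 1 ≤ 1 + C / (K' * p₀ ^ 2) + 4 * C * K' / γ ^ 2 := by
      have h1 : 0 ≤ C / (K' * p₀ ^ 2) := by positivity
      have h2 : 0 ≤ 4 * C * K' / γ ^ 2 := by positivity
      linarith
    have hC2 : 1 + C / (K' * p₀ ^ 2) + 4 * C * K' / γ ^ 2 ≤
        (1 + C / (K' * p₀ ^ 2) + 4 * C * K' / γ ^ 2) ^ 2 := by nlinarith
    have fin : ∀ D : ℝ, D ≤ 1 + C / (K' * p₀ ^ 2) + 4 * C * K' / γ ^ 2 → T ^ 2 ≤ D * e ^ 2 →
        T ≤ (1 + C / (K' * p₀ ^ 2) + 4 * C * K' / γ ^ 2) * e := by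
      intro D hD1 hD2
      refine (pow_le_pow_iff_left₀ hT.le (by positivity) two_ne_zero).1 ?_
      rw [mul_pow]
      exact hD2.trans (mul_le_mul_of_nonneg_right (hD1.trans hC2) (by positivity))
    rcases core hp hK hT _ (key _ hB) with h1 | h1
    · have h2 : 4 * (C * e ^ 2 / T) * K' * T = 4 * C * K' * e ^ 2 := by
        field_simp
      rw [h2] at h1
      by_cases hz : z = 0
      · apply fin (4 * C * K' / γ ^ 2)
        · have h1 : 0 ≤ C / (K' * p₀ ^ 2) := by positivity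
          linarith
        · have h3 := (hz0 hz).trans h1
          rw [div_mul_eq_mul_div, le_div_iff₀ (by positivity)]
          exact h3
      · exfalso
        have h3 := hd' T z hz hT.le hT1
        have h4 : γ ^ 2 ≤ 4 * C * K' * e ^ 2 := (pow_le_pow_left₀ hγ.le h3 2).trans h1
        have h5 : 4 * C * K' * e ^ 2 ≤ 4 * C * K' * e₁ ^ 2 :=
          mul_le_mul_of_nonneg_left hsq (by positivity)
        linarith
    · apply fin (C / (K' * p₀ ^ 2))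
      · have h1 : 0 ≤ 4 * C * K' / γ ^ 2 := by positivity
        linarith
      · rw [le_div_iff₀ hT] at h1
        rw [div_mul_eq_mul_div, le_div_iff₀ (by positivity)]
        nlinarith

end Pool.Agent.H68.HDA
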