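import Pool.Agent.H68.HDA.Base

/-!
# Module Vis: visits come in clusters
`D = √n d`. For two visits `i < j` take the nearest `z` (coordinatewise `round`, see HD/Cov): `‖y i + zv z - y j‖ ≤ D ≤ e₁`, so `T = (j-i)/q` satisfies `T ≤ C₁ D` or
`T ≥ c₁ D^(-s)`. Greedy: if `i₀` is the least visit, all the visits in `[i₀, i₀ + C₁ D q]` are at most `C₁ D q + 1`, every later visit is `≥ i₀ + c₁ D^(-s) q`. So the number of visits
`< N` is at most `(C₁ D q + 1)(1 + N D^s/(c₁ q))` (strong induction on the window: visits in `[a, a + M)` are at most `(C₁ D q + 1)(1 + M D^s/(c₁ q))`).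
-/

set_option autoImplicit false

open MeasureTheory Filter
open scoped RealInnerProductSpace

namespace Pool.Agent.H68.HDA

open Pool.Agent.H33.AM (E Tor pr IsPeriodic)
open Pool.Agent.H68.HD

variable {n : ℕ}

/-- The nearest representative. -/
private theorem exists_close {x y : E n} {d : ℝ} (hd : 0 ≤ d) (h : dist (pr x) (pr y) ≤ d) :
    ∃ z : Fin n → ℤ, ‖x + zv z - y‖ ≤ Real.sqrt n * d := by
  refine ⟨fun i => -round (x i - y i), ?_⟩
  have h1 : ∀ i, |(x + zv (fun i => -round (x i - y i)) - y) i| ≤ d := by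
    intro i
    have h2 : dist (pr x i) (pr y i) ≤ d := (dist_le_pi_dist (pr x) (pr y) i).trans h
    have h3 : pr x i - pr y i = (((x i - y i : ℝ)) : UnitAddCircle) := by
      simp [pr]
    rw [dist_eq_norm, h3, UnitAddCircle.norm_eq] at h2
    have h4 : (x + zv (fun i => -round (x i - y i)) - y) i = x i - y i - round (x i - y i) := by
      simp [zv]
      ring
    rw [h4]
    exact h2
  rw [EuclideanSpace.norm_eq]
  have h5 : ∑ i, ‖(x + zv (fun i => -round (x i - y i)) - y) i‖ ^ 2 ≤ n * d ^ 2 := by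
    calc ∑ i, ‖(x + zv (fun i => -round (x i - y i)) - y) i‖ ^ 2 ≤ ∑ _i : Fin n, d ^ 2 := by
          apply Finset.sum_le_sum
          intro i _
          rw [Real.norm_eq_abs]
          exact pow_le_pow_left₀ (abs_nonneg _) (h1 i) 2
      _ = n * d ^ 2 := by simp
  calc Real.sqrt (∑ i, ‖(x + zv (fun i => -round (x i - y i)) - y) i‖ ^ 2)
      ≤ Real.sqrt (n * d ^ 2) := Real.sqrt_le_sqrt h5
    _ = Real.sqrt n * d := by
      rw [Real.sqrt_mul (Nat.cast_nonneg n), Real.sqrt_sq hd]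

/-- Clusters: the differences are at most `A q` or at least `c₁ q/ρ`. -/
private theorem clus {A ρ c₁ : ℝ} {q : ℕ} (hq : 0 < q) (hA : 0 ≤ A) (hρ : 0 ≤ ρ) (hc : 0 < c₁)
    (b : ℕ) (V : Finset ℕ) :
    (∀ i ∈ V, ∀ j ∈ V, i < j →
      ((j - i : ℕ) : ℝ) / q ≤ A ∨ c₁ ≤ ((j - i : ℕ) : ℝ) / q * ρ) →
    (∀ i ∈ V, i ≤ b) → ∀ m ∈ V, (∀ i ∈ V, m ≤ i) →
      (V.card : ℝ) ≤ (A * q + 1) * (1 + ((b : ℝ) - m) / q * ρ / c₁) := by
  classical
  have hq' : (0 : ℝ) < q := by exact_mod_cast hq
  induction V using Finset.strongInduction with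
  | H V ih =>
    intro hsep hb m hm hmin
    have hAq : 0 ≤ A * q := by positivity
    have hbm : (0 : ℝ) ≤ (b : ℝ) - m := by
      have : (m : ℝ) ≤ b := by exact_mod_cast hb m hm
      linarith
    have hV1 : ((V.filter fun i => ((i - m : ℕ) : ℝ) / q ≤ A).card : ℝ) ≤ A * q + 1 := by
      have h1 : (V.filter fun i => ((i - m : ℕ) : ℝ) / q ≤ A) ⊆ Finset.Icc m (m + ⌊A * q⌋₊) := by
        intro i hi
        rw [Finset.mem_filter] at hi
        rw [Finset.mem_Icc]
        refine ⟨hmin i hi.1, ?_⟩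
        have h2 : ((i - m : ℕ) : ℝ) ≤ A * q := (div_le_iff₀ hq').1 hi.2
        have h3 : i - m ≤ ⌊A * q⌋₊ := Nat.le_floor h2
        have h4 := hmin i hi.1
        omega
      have h5 := Finset.card_le_card h1
      rw [Nat.card_Icc] at h5
      have h6 : (V.filter fun i => ((i - m : ℕ) : ℝ) / q ≤ A).card ≤ ⌊A * q⌋₊ + 1 := by omega
      have h7 : ((V.filter fun i => ((i - m : ℕ) : ℝ) / q ≤ A).card : ℝ) ≤ ⌊A * q⌋₊ + 1 := by
        exact_mod_cast h6
      have h8 := Nat.floor_le hAq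
      linarith
    have hsum : (V.card : ℝ) = (V.filter fun i => ((i - m : ℕ) : ℝ) / q ≤ A).card +
        (V.filter fun i => ¬ ((i - m : ℕ) : ℝ) / q ≤ A).card := by
      rw [← Nat.cast_add, Finset.card_filter_add_card_filter_not]
    rcases (V.filter fun i => ¬ ((i - m : ℕ) : ℝ) / q ≤ A).eq_empty_or_nonempty with he | hne
    · rw [hsum, he]
      have h1 : 0 ≤ ((b : ℝ) - m) / q * ρ / c₁ := by positivity
      have h2 : 0 ≤ (A * q + 1) * (((b : ℝ) - m) / q * ρ / c₁) := by positivity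
      rw [mul_add, mul_one]
      simp only [Finset.card_empty, Nat.cast_zero]
      linarith
    · obtain ⟨m', hm'⟩ : ∃ m', m' = (V.filter fun i => ¬ ((i - m : ℕ) : ℝ) / q ≤ A).min' hne :=
        ⟨_, rfl⟩
      have hmem : m' ∈ V.filter fun i => ¬ ((i - m : ℕ) : ℝ) / q ≤ A := by
        rw [hm']
        exact Finset.min'_mem _ _
      have hmV := Finset.mem_filter.1 hmem
      have hlt : m < m' := by
        rcases (hmin m' hmV.1).lt_or_eq with h | h
        · exact h
        · exfalso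
          apply hmV.2
          rw [← h]
          simpa using hA
      have h1 := (hsep m hm m' hmV.1 hlt).resolve_left hmV.2
      rw [Nat.cast_sub hlt.le] at h1
      have hss : (V.filter fun i => ¬ ((i - m : ℕ) : ℝ) / q ≤ A) ⊂ V := by
        refine Finset.filter_ssubset.2 ⟨m, hm, ?_⟩
        rw [not_not]
        simpa using hA
      have h2 := ih _ hss (fun i hi j hj => hsep i (Finset.mem_filter.1 hi).1 j
        (Finset.mem_filter.1 hj).1) (fun i hi => hb i (Finset.mem_filter.1 hi).1) m' hmem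
        (fun i hi => by rw [hm']; exact Finset.min'_le _ _ hi)
      have h3 : ((b : ℝ) - m') / q * ρ / c₁ ≤ ((b : ℝ) - m) / q * ρ / c₁ - 1 := by
        rw [le_sub_iff_add_le, ← div_self hc.ne', ← add_div]
        apply div_le_div_of_nonneg_right _ hc.le
        have e : ((b : ℝ) - m) / q * ρ = ((b : ℝ) - m') / q * ρ + ((m' : ℝ) - m) / q * ρ := by
          ring
        rw [e]
        linarith
      have h4 : (A * q + 1) * (1 + ((b : ℝ) - m') / q * ρ / c₁) ≤
          (A * q + 1) * (((b : ℝ) - m) / q * ρ / c₁) := by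
        apply mul_le_mul_of_nonneg_left _ (by positivity)
        linarith
      rw [hsum, mul_add, mul_one]
      linarith

theorem visits2 {y : ℕ → E n} {s c₁ C₁ e₁ d : ℝ} {q : ℕ} (hq : 0 < q) (hs : 0 < s) (hc : 0 < c₁)
    (hC : 0 < C₁) (hd : 0 < d) (hd1 : Real.sqrt n * d ≤ e₁) (hn : 0 < n)
    (h : ∀ i j z, i < j → ‖y i + zv z - y j‖ ≤ e₁ →
      ((j - i : ℕ) : ℝ) / q ≤ C₁ * ‖y i + zv z - y j‖ ∨
        c₁ ≤ ((j - i : ℕ) : ℝ) / q * ‖y i + zv z - y j‖ ^ s) (U : Set (Tor n))
    (hU : ∀ p ∈ U, ∀ p' ∈ U, dist p p' ≤ d) (N : ℕ) :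
    ((Set.ncard {i | i < N ∧ pr (y i) ∈ U} : ℕ) : ℝ) ≤
      (C₁ * (Real.sqrt n * d) * q + 1) * (1 + N / q * (Real.sqrt n * d) ^ s / c₁) := by
  classical
  have hD0 : 0 ≤ Real.sqrt n * d := by positivity
  have hρ : 0 ≤ (Real.sqrt n * d) ^ s := Real.rpow_nonneg hD0 s
  have hA : 0 ≤ C₁ * (Real.sqrt n * d) := by positivity
  have hq' : (0 : ℝ) < q := by exact_mod_cast hq
  have hset : {i | i < N ∧ pr (y i) ∈ U}
      = (((Finset.range N).filter (fun i => pr (y i) ∈ U) : Finset ℕ) : Set ℕ) := by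
    ext i
    simp
  rw [hset, Set.ncard_coe_finset]
  rcases ((Finset.range N).filter (fun i => pr (y i) ∈ U)).eq_empty_or_nonempty with he | hne
  · rw [he]
    simp only [Finset.card_empty, Nat.cast_zero]
    positivity
  · have key := clus (A := C₁ * (Real.sqrt n * d)) (c₁ := c₁) hq hA hρ hc N
      ((Finset.range N).filter (fun i => pr (y i) ∈ U)) (by
      intro i hi j hj hij
      have hi' := (Finset.mem_filter.1 hi).2
      have hj' := (Finset.mem_filter.1 hj).2
      obtain ⟨z, hz⟩ := exists_close hd.le (hU _ hi' _ hj')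
      rcases h i j z hij (hz.trans hd1) with h1 | h1
      · exact Or.inl (h1.trans (mul_le_mul_of_nonneg_left hz hC.le))
      · refine Or.inr (h1.trans ?_)
        apply mul_le_mul_of_nonneg_left _ (by positivity)
        exact Real.rpow_le_rpow (norm_nonneg _) hz hs.le) (by
      intro i hi
      exact (Finset.mem_range.1 (Finset.mem_filter.1 hi).1).le) _ (Finset.min'_mem _ hne)
      (fun i hi => Finset.min'_le _ _ hi)
    refine key.trans ?_
    apply mul_le_mul_of_nonneg_left _ (by positivity)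
    have h2 : ((N : ℝ) - (((Finset.range N).filter (fun i => pr (y i) ∈ U)).min' hne : ℕ)) / q *
        (Real.sqrt n * d) ^ s / c₁ ≤ (N : ℝ) / q * (Real.sqrt n * d) ^ s / c₁ := by
      apply div_le_div_of_nonneg_right _ hc.le
      apply mul_le_mul_of_nonneg_right _ hρ
      apply div_le_div_of_nonneg_right _ hq'.le
      have : (0 : ℝ) ≤ (((Finset.range N).filter (fun i => pr (y i) ∈ U)).min' hne : ℕ) :=
        Nat.cast_nonneg _
      linarith
    linarith

end Pool.Agent.H68.HDA
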