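import Pool.Agent.H68.HDA.Base
import Pool.Agent.H68.HDA.Vis

/-!
# Module FCo: finite covers
For every `q`: `N ≤ ∑_j (C₁ D_j q + 1)(1 + (N/q) D_j^s/c₁)` for all `N` (`visits2`; the indices `< N` are covered by the visit sets), divide by `N → ∞`:
`1 ≤ ∑_j (C₁ D_j + 1/q) D_j^s/c₁`; `q → ∞`: `c₁ ≤ C₁ ∑_j D_j^(1+s)`.
-/

set_option autoImplicit false

open MeasureTheory Filter
open scoped RealInnerProductSpace

namespace Pool.Agent.H68.HDA

open Pool.Agent.H33.AM (E Tor pr IsPeriodic)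
open Pool.Agent.H68.HD

variable {n : ℕ}

theorem finite_cover2 {y : ℕ → ℕ → E n} {s c₁ C₁ e₁ : ℝ} (hs : 0 < s) (hc : 0 < c₁)
    (hC : 0 < C₁) (hn : 0 < n)
    (h : ∀ q, 0 < q → ∀ i j z, i < j → ‖y q i + zv z - y q j‖ ≤ e₁ →
      ((j - i : ℕ) : ℝ) / q ≤ C₁ * ‖y q i + zv z - y q j‖ ∨
        c₁ ≤ ((j - i : ℕ) : ℝ) / q * ‖y q i + zv z - y q j‖ ^ s) {ι : Type*} (J : Finset ι)
    (U : ι → Set (Tor n)) (d : ι → ℝ) (hd : ∀ j ∈ J, 0 < d j ∧ Real.sqrt n * d j ≤ e₁)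
    (hU : ∀ j ∈ J, ∀ p ∈ U j, ∀ p' ∈ U j, dist p p' ≤ d j)
    (hcov : ∀ q, 0 < q → ∀ i, ∃ j ∈ J, pr (y q i) ∈ U j) :
    c₁ ≤ C₁ * ∑ j ∈ J, (Real.sqrt n * d j) ^ (1 + s) := by
  classical
  have key : ∀ q : ℕ, 0 < q → ∀ N : ℕ, (N : ℝ) ≤
      ∑ j ∈ J, (C₁ * (Real.sqrt n * d j) * q + 1) *
        (1 + N / q * (Real.sqrt n * d j) ^ s / c₁) := by
    intro q hq N
    have h1 : (Finset.range N).card
        ≤ ∑ j ∈ J, ((Finset.range N).filter (fun i => pr (y q i) ∈ U j)).card := by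
      refine le_trans (Finset.card_le_card ?_) Finset.card_biUnion_le
      intro i hi
      obtain ⟨j, hj, hij⟩ := hcov q hq i
      exact Finset.mem_biUnion.2 ⟨j, hj, Finset.mem_filter.2 ⟨hi, hij⟩⟩
    rw [Finset.card_range] at h1
    have h2 : (N : ℝ) ≤
        ∑ j ∈ J, (((Finset.range N).filter (fun i => pr (y q i) ∈ U j)).card : ℝ) := by
      exact_mod_cast h1
    refine h2.trans (Finset.sum_le_sum fun j hj => ?_)
    have h3 := visits2 (y := y q) hq hs hc hC (hd j hj).1 (hd j hj).2 hn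
      (fun i j z hij hle => h q hq i j z hij hle) (U j) (hU j hj) N
    have hset : {i | i < N ∧ pr (y q i) ∈ U j}
        = (((Finset.range N).filter (fun i => pr (y q i) ∈ U j) : Finset ℕ) : Set ℕ) := by
      ext i
      simp
    rw [hset, Set.ncard_coe_finset] at h3
    exact h3
  set W := ∑ j ∈ J, (Real.sqrt n * d j) ^ s with hW
  set V := ∑ j ∈ J, (Real.sqrt n * d j) ^ (1 + s) with hV
  have key2 : ∀ q : ℕ, 0 < q → c₁ ≤ C₁ * V + W / q := by
    intro q hq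
    have hq' : (0 : ℝ) < q := by exact_mod_cast hq
    set A := ∑ j ∈ J, (C₁ * (Real.sqrt n * d j) * q + 1) with hA
    have e1 : ∀ N : ℕ, ∑ j ∈ J, (C₁ * (Real.sqrt n * d j) * q + 1) *
        (1 + N / q * (Real.sqrt n * d j) ^ s / c₁) = A + N * (C₁ * V + W / q) / c₁ := by
      intro N
      rw [hA, hV, hW, Finset.mul_sum, Finset.sum_div, ← Finset.sum_add_distrib, Finset.mul_sum,
        Finset.sum_div, ← Finset.sum_add_distrib]
      refine Finset.sum_congr rfl fun j hj => ?_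
      have h4 : 0 < Real.sqrt n * d j :=
        mul_pos (Real.sqrt_pos.2 (by exact_mod_cast hn)) (hd j hj).1
      rw [Real.rpow_add h4, Real.rpow_one]
      field_simp
    by_contra hcon
    push Not at hcon
    obtain ⟨N, hN⟩ := exists_nat_gt (A * c₁ / (c₁ - (C₁ * V + W / q)))
    have h1 := key q hq N
    rw [e1] at h1
    rw [div_lt_iff₀ (by linarith)] at hN
    have h2 : (N : ℝ) * c₁ ≤ A * c₁ + N * (C₁ * V + W / q) := by
      calc (N : ℝ) * c₁ ≤ (A + N * (C₁ * V + W / q) / c₁) * c₁ :=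
            mul_le_mul_of_nonneg_right h1 hc.le
        _ = A * c₁ + N * (C₁ * V + W / q) := by field_simp
    linarith
  by_contra hcon
  push Not at hcon
  obtain ⟨q, hq⟩ := exists_nat_gt (max 0 (W / (c₁ - C₁ * V)))
  have hq0 : (0 : ℝ) < q := lt_of_le_of_lt (le_max_left _ _) hq
  have hq1 : 0 < q := by exact_mod_cast hq0
  have h1 := key2 q hq1
  have h2 : W / (c₁ - C₁ * V) < q := lt_of_le_of_lt (le_max_right _ _) hq
  rw [div_lt_iff₀ (by linarith)] at h2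
  have h3 : W / q < c₁ - C₁ * V := by
    rw [div_lt_iff₀ hq0]
    linarith
  linarith

end Pool.Agent.H68.HDA
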