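import Pool.Agent.H68.HDA.Base

/-!
# Module Flo: real times
`h' l = h (l+1)/h 0`. Let `ε = ‖zv z - T • h‖`, `z = (z₀, z')`. If `ε ≥ 1` nothing to prove (take `γ ≤ 1`). `|z₀ - T h₀| ≤ ε`, `|z_l - T h_l| ≤ ε`, so
`|h₀ z_l - z₀ h_l| ≤ 2 ‖h‖ ε`, i.e. `‖zv z' - z₀ • h'‖ ≤ 2 √m ‖h‖ ε/|h₀|`. `z₀ ≠ 0`: `hd` with `k = |z₀|` (replace `z'` by `-z'` if `z₀ < 0`), `|z₀| ≤ ‖h‖ T + 1 ≤ (‖h‖ + 1) max T 1`. `z₀ = 0`, so `z' ≠ 0`:
`ε ≥ T |h₀|` and `ε ≥ ‖zv z‖ - T ‖h‖ ≥ 1 - T ‖h‖`, so `ε ≥ |h₀|/(|h₀| + ‖h‖)`.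
-/

set_option autoImplicit false

open MeasureTheory Filter
open scoped RealInnerProductSpace

namespace Pool.Agent.H68.HDA

open Pool.Agent.H33.AM (E Tor pr IsPeriodic)
open Pool.Agent.H68.HD

variable {n : ℕ}

private theorem abs_coord_le (x : E n) (i : Fin n) : |x i| ≤ ‖x‖ := by
  have h := PiLp.norm_apply_le x i
  rw [Real.norm_eq_abs] at h
  exact h

private theorem coord_sub (z : Fin n → ℤ) (T : ℝ) (h : E n) (i : Fin n) :
    (zv z - T • h) i = (z i : ℝ) - T * h i := by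
  simp [zv]

private theorem norm_le_of_coord {x : E n} {b : ℝ} (hb : 0 ≤ b) (hx : ∀ i, |x i| ≤ b) :
    ‖x‖ ≤ (Real.sqrt n + 1) * b := by
  have h1 : ‖x‖ ≤ Real.sqrt n * b := by
    rw [EuclideanSpace.norm_eq]
    have h2 : ∑ i, ‖x i‖ ^ 2 ≤ (n : ℝ) * b ^ 2 := by
      calc ∑ i, ‖x i‖ ^ 2 ≤ ∑ _i : Fin n, b ^ 2 := by
            refine Finset.sum_le_sum fun i _ => ?_
            rw [Real.norm_eq_abs]
            exact pow_le_pow_left₀ (abs_nonneg _) (hx i) 2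
        _ = (n : ℝ) * b ^ 2 := by
            rw [Finset.sum_const, Finset.card_univ, Fintype.card_fin, nsmul_eq_mul]
    refine (Real.sqrt_le_sqrt h2).trans ?_
    rw [Real.sqrt_mul (Nat.cast_nonneg n), Real.sqrt_sq hb]
  nlinarith

/-- The case of a vanishing first coordinate. -/
private theorem case_zero {m : ℕ} {h : E (m + 1)} (h0 : h 0 ≠ 0) {T : ℝ} (hT : 0 ≤ T)
    {z : Fin (m + 1) → ℤ} (hz : z ≠ 0) (hz0 : z 0 = 0) :
    |h 0| / (|h 0| + ‖h‖) ≤ ‖zv z - T • h‖ := by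
  have ha : 0 < |h 0| := abs_pos.2 h0
  have h1 : T * |h 0| ≤ ‖zv z - T • h‖ := by
    have h2 := abs_coord_le (zv z - T • h) 0
    rw [coord_sub, hz0, Int.cast_zero, zero_sub, abs_neg, abs_mul, abs_of_nonneg hT] at h2
    exact h2
  obtain ⟨i, hi⟩ := Function.ne_iff.1 hz
  rw [Pi.zero_apply] at hi
  have h3 : 1 ≤ ‖zv z‖ := by
    have h4 := abs_coord_le (zv z) i
    have h5 : (zv z) i = (z i : ℝ) := rfl
    have h6 : (1 : ℝ) ≤ |(z i : ℝ)| := by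
      rw [← Int.cast_abs]
      exact_mod_cast Int.one_le_abs hi
    rw [h5] at h4
    exact h6.trans h4
  have h7 : 1 - T * ‖h‖ ≤ ‖zv z - T • h‖ := by
    have h8 : ‖zv z‖ ≤ ‖zv z - T • h‖ + ‖T • h‖ := by
      have h9 := norm_add_le (zv z - T • h) (T • h)
      rw [sub_add_cancel] at h9
      exact h9
    rw [norm_smul, Real.norm_eq_abs, abs_of_nonneg hT] at h8
    linarith
  have hn : 0 ≤ ‖h‖ := norm_nonneg h
  rw [div_le_iff₀ (by linarith)]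
  nlinarith [mul_le_mul_of_nonneg_right h1 hn, mul_le_mul_of_nonneg_left h7 ha.le]

/-- The case of a nonzero first coordinate. -/
private theorem case_ne {m : ℕ} {τ γ' : ℝ} (hτ : 0 ≤ τ) (hγ : 0 < γ') {h : E (m + 1)}
    (h0 : h 0 ≠ 0)
    (hd : ∀ k : ℕ, 0 < k → ∀ z : Fin m → ℤ, γ' * (k : ℝ) ^ (-τ) ≤
      ‖zv z - (k : ℝ) • (WithLp.toLp 2 (fun l : Fin m => h l.succ / h 0) : E m)‖)
    {T : ℝ} (hT : 0 ≤ T) {z : Fin (m + 1) → ℤ} (hz0 : z 0 ≠ 0) (hε : ‖zv z - T • h‖ ≤ 1) :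
    γ' * ((‖h‖ + 1) * max T 1) ^ (-τ) ≤
      (Real.sqrt m + 1) * (2 * ‖h‖ / |h 0|) * ‖zv z - T • h‖ := by
  have ha : 0 < |h 0| := abs_pos.2 h0
  have hH : 0 ≤ ‖h‖ := norm_nonneg h
  set ε : ℝ := ‖zv z - T • h‖ with hεd
  have hε0 : 0 ≤ ε := norm_nonneg _
  have hc : ∀ i, |(z i : ℝ) - T * h i| ≤ ε := by
    intro i
    have h1 := abs_coord_le (zv z - T • h) i
    rw [coord_sub] at h1
    exact h1
  -- the bound for the primed vector
  have hvec : ‖zv (fun l : Fin m => z l.succ) -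
      ((z 0 : ℤ) : ℝ) • (WithLp.toLp 2 (fun l : Fin m => h l.succ / h 0) : E m)‖ ≤
      (Real.sqrt m + 1) * (2 * ‖h‖ / |h 0|) * ε := by
    have hb : 0 ≤ 2 * ‖h‖ / |h 0| * ε := by positivity
    refine (norm_le_of_coord hb fun l => ?_).trans (by rw [mul_assoc])
    rw [coord_sub]
    have h1 : ((z l.succ : ℤ) : ℝ) - ((z 0 : ℤ) : ℝ) *
        (WithLp.toLp 2 (fun l : Fin m => h l.succ / h 0) : E m) l =
        (h 0 * ((z l.succ : ℝ) - T * h l.succ) - h l.succ * ((z 0 : ℝ) - T * h 0)) / h 0 := by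
      have h2 : (WithLp.toLp 2 (fun l : Fin m => h l.succ / h 0) : E m) l = h l.succ / h 0 := rfl
      rw [h2]
      field_simp
      ring
    rw [h1, abs_div, div_mul_eq_mul_div]
    refine div_le_div_of_nonneg_right ?_ ha.le
    refine (abs_sub _ _).trans ?_
    rw [abs_mul, abs_mul]
    have h3 : |h 0| * |(z l.succ : ℝ) - T * h l.succ| ≤ ‖h‖ * ε :=
      mul_le_mul (abs_coord_le h 0) (hc l.succ) (abs_nonneg _) hH
    have h4 : |h l.succ| * |(z 0 : ℝ) - T * h 0| ≤ ‖h‖ * ε :=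
      mul_le_mul (abs_coord_le h l.succ) (hc 0) (abs_nonneg _) hH
    linarith
  -- the number `k`
  set k : ℕ := (z 0).natAbs with hk
  have hkpos : 0 < k := Int.natAbs_pos.2 hz0
  have hkabs : (k : ℝ) = |((z 0 : ℤ) : ℝ)| := by
    rw [hk, Nat.cast_natAbs, Int.cast_abs]
  have hmain : γ' * (k : ℝ) ^ (-τ) ≤ (Real.sqrt m + 1) * (2 * ‖h‖ / |h 0|) * ε := by
    rcases lt_or_gt_of_ne hz0 with hneg | hpos
    · have h1 := hd k hkpos (-(fun l : Fin m => z l.succ))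
      have h2 : (k : ℝ) = -((z 0 : ℤ) : ℝ) := by
        rw [hkabs, abs_of_neg (by exact_mod_cast hneg)]
      have h3 : zv (-(fun l : Fin m => z l.succ)) -
          (k : ℝ) • (WithLp.toLp 2 (fun l : Fin m => h l.succ / h 0) : E m) =
          -(zv (fun l : Fin m => z l.succ) -
      ((z 0 : ℤ) : ℝ) • (WithLp.toLp 2 (fun l : Fin m => h l.succ / h 0) : E m)) := by
        rw [zv_neg, h2, neg_smul]
        abel
      rw [h3, norm_neg] at h1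
      exact h1.trans hvec
    · have h1 := hd k hkpos (fun l : Fin m => z l.succ)
      have h2 : (k : ℝ) = ((z 0 : ℤ) : ℝ) := by
        rw [hkabs, abs_of_pos (by exact_mod_cast hpos)]
      have h3 : ‖zv (fun l : Fin m => z l.succ) -
          (k : ℝ) • (WithLp.toLp 2 (fun l : Fin m => h l.succ / h 0) : E m)‖ =
          ‖zv (fun l : Fin m => z l.succ) -
      ((z 0 : ℤ) : ℝ) • (WithLp.toLp 2 (fun l : Fin m => h l.succ / h 0) : E m)‖ := by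
        rw [h2]
      exact h1.trans (h3.le.trans hvec)
  -- the size of `k`
  have hkle : (k : ℝ) ≤ (‖h‖ + 1) * max T 1 := by
    have h1 := hc 0
    have h2 : |((z 0 : ℤ) : ℝ)| ≤ T * ‖h‖ + 1 := by
      have h3 : |((z 0 : ℤ) : ℝ)| ≤ |((z 0 : ℤ) : ℝ) - T * h 0| + |T * h 0| := by
        have h4 := abs_add_le (((z 0 : ℤ) : ℝ) - T * h 0) (T * h 0)
        rw [sub_add_cancel] at h4
        exact h4
      rw [abs_mul, abs_of_nonneg hT] at h3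
      have h5 : T * |h 0| ≤ T * ‖h‖ := mul_le_mul_of_nonneg_left (abs_coord_le h 0) hT
      linarith
    rw [hkabs]
    have h6 : T ≤ max T 1 := le_max_left _ _
    have h7 : (1 : ℝ) ≤ max T 1 := le_max_right _ _
    have h8 : T * ‖h‖ ≤ max T 1 * ‖h‖ := mul_le_mul_of_nonneg_right h6 hH
    nlinarith
  have hkr : (0 : ℝ) < k := by exact_mod_cast hkpos
  have hpow : ((‖h‖ + 1) * max T 1) ^ (-τ) ≤ (k : ℝ) ^ (-τ) :=
    Real.rpow_le_rpow_of_nonpos hkr hkle (neg_nonpos.2 hτ)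
  exact (mul_le_mul_of_nonneg_left hpow hγ.le).trans hmain

theorem flow_of_dioph {m : ℕ} {τ γ' : ℝ} (hτ : 0 ≤ τ) (hγ : 0 < γ') {h : E (m + 1)}
    (h0 : h 0 ≠ 0)
    (hd : ∀ k : ℕ, 0 < k → ∀ z : Fin m → ℤ, γ' * (k : ℝ) ^ (-τ) ≤
      ‖zv z - (k : ℝ) • (WithLp.toLp 2 (fun l : Fin m => h l.succ / h 0) : E m)‖) :
    ∃ γ : ℝ, 0 < γ ∧ γ ≤ ‖h‖ ∧
      (∀ (T : ℝ) (z : Fin (m + 1) → ℤ), z ≠ 0 → 1 ≤ T → γ * T ^ (-τ) ≤ ‖zv z - T • h‖) ∧
      (∀ (T : ℝ) (z : Fin (m + 1) → ℤ), z ≠ 0 → 0 ≤ T → T ≤ 1 → γ ≤ ‖zv z - T • h‖) := by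
  have ha : 0 < |h 0| := abs_pos.2 h0
  have haH : |h 0| ≤ ‖h‖ := abs_coord_le h 0
  have hH : 0 < ‖h‖ := ha.trans_le haH
  set C : ℝ := (Real.sqrt m + 1) * (2 * ‖h‖ / |h 0|) with hC
  have hCpos : 0 < C := by
    have : 0 < Real.sqrt m + 1 := by positivity
    positivity
  set γ₁ : ℝ := γ' * (‖h‖ + 1) ^ (-τ) / C with hγ₁
  have hγ₁pos : 0 < γ₁ := by
    have : 0 < (‖h‖ + 1) ^ (-τ) := Real.rpow_pos_of_pos (by linarith) _
    positivity
  set γ₂ : ℝ := |h 0| / (|h 0| + ‖h‖) with hγ₂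
  have hγ₂pos : 0 < γ₂ := by positivity
  set γ : ℝ := min (min 1 ‖h‖) (min γ₁ γ₂) with hγd
  have hγpos : 0 < γ := lt_min (lt_min one_pos hH) (lt_min hγ₁pos hγ₂pos)
  have hg1 : γ ≤ 1 := (min_le_left _ _).trans (min_le_left _ _)
  have hgH : γ ≤ ‖h‖ := (min_le_left _ _).trans (min_le_right _ _)
  have hgγ₁ : γ ≤ γ₁ := (min_le_right _ _).trans (min_le_left _ _)
  have hgγ₂ : γ ≤ γ₂ := (min_le_right _ _).trans (min_le_right _ _)
  have hkey : ∀ (T : ℝ) (z : Fin (m + 1) → ℤ), z ≠ 0 → 0 ≤ T →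
      γ * (max T 1) ^ (-τ) ≤ ‖zv z - T • h‖ := by
    intro T z hz hT
    have hM1 : (1 : ℝ) ≤ max T 1 := le_max_right _ _
    have hMp : (max T 1) ^ (-τ) ≤ 1 :=
      Real.rpow_le_one_of_one_le_of_nonpos hM1 (neg_nonpos.2 hτ)
    have hMpos : 0 < (max T 1) ^ (-τ) := Real.rpow_pos_of_pos (by linarith) _
    have hred : γ * (max T 1) ^ (-τ) ≤ γ := by
      calc γ * (max T 1) ^ (-τ) ≤ γ * 1 := mul_le_mul_of_nonneg_left hMp hγpos.le
        _ = γ := mul_one _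
    by_cases hz0 : z 0 = 0
    · exact hred.trans (hgγ₂.trans (case_zero h0 hT hz hz0))
    · by_cases hε : ‖zv z - T • h‖ ≤ 1
      · have h1 := case_ne hτ hγ h0 hd hT hz0 hε
        rw [Real.mul_rpow (by linarith) (by linarith), ← hC] at h1
        have h2 : γ₁ * (max T 1) ^ (-τ) ≤ ‖zv z - T • h‖ := by
          rw [hγ₁, div_mul_eq_mul_div, div_le_iff₀ hCpos]
          calc γ' * (‖h‖ + 1) ^ (-τ) * (max T 1) ^ (-τ)
              = γ' * ((‖h‖ + 1) ^ (-τ) * (max T 1) ^ (-τ)) := by ring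
            _ ≤ C * ‖zv z - T • h‖ := h1
            _ = ‖zv z - T • h‖ * C := by ring
        exact (mul_le_mul_of_nonneg_right hgγ₁ hMpos.le).trans h2
      · exact hred.trans (hg1.trans (not_le.1 hε).le)
  refine ⟨γ, hγpos, hgH, ?_, ?_⟩
  · intro T z hz hT
    have h1 := hkey T z hz (by linarith)
    rw [max_eq_left hT] at h1
    exact h1
  · intro T z hz hT0 hT1
    have h1 := hkey T z hz hT0
    rw [max_eq_right hT1, Real.one_rpow, mul_one] at h1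
    exact h1

end Pool.Agent.H68.HDA
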