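import Pool.Agent.H68.HDA.Base

/-!
# Module Rat: ratios
`E (m+1) ≃ ℝ × E m` measure preserving (`EuclideanSpace.volume_preserving_measurableEquiv`, `MeasureTheory.volume_preserving_piFinSuccAbove`), for a fixed first coordinate `a ≠ 0` the map
`v ↦ v/a` of `E m` is a homothety, so preimages of null sets are null (`Measure.addHaar_preimage_smul` or `quasiMeasurePreserving_smul`); Fubini (`Measure.ae_prod...`, `MeasureTheory.Measure.measure_prod_null`
for the measurable hull of the complement of `P`). `h 0 ≠ 0` a.e.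
-/

set_option autoImplicit false

open MeasureTheory Filter
open scoped RealInnerProductSpace

namespace Pool.Agent.H68.HDA

open Pool.Agent.H33.AM (E Tor pr IsPeriodic)
open Pool.Agent.H68.HD

variable {n : ℕ}

theorem ae_ratio {m : ℕ} {P : E m → Prop} (hP : ∀ᵐ h : E m, P h) :
    ∀ᵐ h : E (m + 1), h 0 ≠ 0 ∧ P (WithLp.toLp 2 (fun l : Fin m => h l.succ / h 0) : E m) := by
  have h1 : ∀ᵐ v : Fin m → ℝ, P (WithLp.toLp 2 v) :=
    (PiLp.volume_preserving_toLp (Fin m)).quasiMeasurePreserving.ae hP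
  obtain ⟨t, ht, htm, ht0⟩ := exists_measurable_superset_of_null (ae_iff.1 h1)
  have hN : MeasurableSet {q : ℝ × (Fin m → ℝ) | q.1 = 0 ∨ (fun l => q.2 l / q.1) ∈ t} := by
    refine (measurableSet_eq_fun measurable_fst measurable_const).union ?_
    have h2 : Measurable fun q : ℝ × (Fin m → ℝ) => fun l => q.2 l / q.1 :=
      measurable_pi_lambda _ fun l => ((measurable_pi_apply l).comp measurable_snd).div
        measurable_fst
    exact h2 htm
  have hN0 : volume {q : ℝ × (Fin m → ℝ) | q.1 = 0 ∨ (fun l => q.2 l / q.1) ∈ t} = 0 := by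
    rw [Measure.volume_eq_prod, Measure.measure_prod_null hN]
    have h2 : ∀ᵐ x : ℝ, x ≠ 0 := by
      rw [ae_iff]
      simp
    filter_upwards [h2] with x hx
    have e : (Prod.mk x ⁻¹' {q : ℝ × (Fin m → ℝ) | q.1 = 0 ∨ (fun l => q.2 l / q.1) ∈ t})
        = (fun v : Fin m → ℝ => x⁻¹ • v) ⁻¹' t := by
      ext v
      simp only [Set.mem_preimage, Set.mem_ofPred_eq, hx, false_or]
      have h3 : (fun l => v l / x) = x⁻¹ • v := by
        funext l
        rw [Pi.smul_apply, smul_eq_mul, div_eq_inv_mul]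
      rw [h3]
    rw [e, Measure.addHaar_preimage_smul volume (inv_ne_zero hx), ht0, mul_zero]
    rfl
  have h2 : ∀ᵐ q : ℝ × (Fin m → ℝ), q.1 ≠ 0 ∧
      P (WithLp.toLp 2 (fun l => q.2 l / q.1)) := by
    rw [ae_iff]
    refine measure_mono_null ?_ hN0
    intro q hq
    by_contra h3
    rw [Set.mem_ofPred_eq, not_or] at h3
    refine hq ⟨h3.1, ?_⟩
    by_contra h4
    exact h3.2 (ht h4)
  have h3 := (volume_preserving_piFinSuccAbove (fun _ : Fin (m + 1) => ℝ)
    0).quasiMeasurePreserving.ae h2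
  have h4 := (PiLp.volume_preserving_ofLp (Fin (m + 1))).quasiMeasurePreserving.ae h3
  filter_upwards [h4] with h hh
  exact hh

end Pool.Agent.H68.HDA
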