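import Pool.Agent.H68.HD.Main
import Pool.Agent.H68.HDA.Alp
import Pool.Agent.H68.HDA.Auq
import Pool.Agent.H68.HDA.ClL
import Pool.Agent.H68.HDA.ClS
import Pool.Agent.H68.HDA.Def
import Pool.Agent.H68.HDA.Hau2
import Pool.Agent.H68.HDA.Flo
import Pool.Agent.H68.HDA.Rat

/-!
# Main: assembly
-/

set_option autoImplicit false

open MeasureTheory Filter
open scoped RealInnerProductSpace

namespace Pool.Agent.H68.HDA

open Pool.Agent.H33.AM (E Tor pr IsPeriodic)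
open Pool.Agent.H68.HD

variable {n : ℕ}

private theorem pr_cont : Continuous (pr : E n → Tor n) := by
  refine continuous_pi fun i => ?_
  exact (AddCircle.continuous_mk' (1 : ℝ)).comp (PiLp.continuous_apply 2 (fun _ : Fin n => ℝ) i)

/-- The calibrated chains of the time unit `1/q`. -/
private theorem exists_cal {L : E n → E n → ℝ → ℝ} {κ K : ℝ} (hL : Growth L κ K) (ha : Aut L)
    {q : ℕ} (hq : 0 < q) (c : E n) :
    ∃ (u : E n → ℝ) (y : ℕ → E n), Cal (Sp (Lq q L) c (alpha L c / q)) u y ∧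
      ∀ i, Aub (Sp L c (alpha L c)) (y i) := by
  obtain ⟨K', hq'⟩ := growth_q hL hq
  have hα : alpha (Lq q L) c = alpha L c / q := alpha_q hL ha hq c
  obtain ⟨a, b, κ', K'', hS⟩ := pot hq' c (alpha (Lq q L) c)
  have h1 := n1 hq' c
  have h2 := n2 hq' c
  obtain ⟨u, M, Λ, hu⟩ := exists_sub hS h1
  obtain ⟨x, hx⟩ := exists_aub hS hu h2
  obtain ⟨y, hyA, hy⟩ := exists_chain hS hu hx
  rw [hα] at hyA hy hu
  exact ⟨u, y, ⟨hu.per, hu.sub, hy⟩, fun i => aub_q hL ha hq c _ (hyA i)⟩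

private theorem twist {L : E n → E n → ℝ → ℝ} {κ K : ℝ} (hL : Growth L κ K) (ha : Aut L)
    {q : ℕ} (hq : 0 < q) (c p : E n) {g : ℕ → E n} {k : ℕ} {z : Fin n → ℤ} (hg : Cl g k z) :
    ⟪p, zv z⟫ - (k : ℝ) / q * (alpha L (c + p) - alpha L c) ≤
      cost (Sp (Lq q L) c (alpha L c / q)) g k := by
  obtain ⟨K', hq'⟩ := growth_q hL hq
  have h3 := n1 hq' (c + p) g k z hg
  rw [alpha_q hL ha hq, cost_shift hq' c p (alpha L c / q), hg.2, add_sub_cancel_left] at h3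
  have h4 : (k : ℝ) * (alpha L (c + p) / q - alpha L c / q) =
      (k : ℝ) / q * (alpha L (c + p) - alpha L c) := by ring
  rw [h4] at h3
  linarith

theorem main1 {L : E n → E n → ℝ → ℝ} {κ K : ℝ} (hL : Growth L κ K) (ha : Aut L) (hn : 0 < n)
    {c h : E n} {K' p₀ γ τ : ℝ} (hp : 0 < p₀) (hγ : 0 < γ) (hτ : 0 ≤ τ)
    (hq : ∀ p, ‖p‖ ≤ p₀ → alpha L (c + p) ≤ alpha L c + ⟪h, p⟫ + K' * ‖p‖ ^ 2) (hh : γ ≤ ‖h‖)
    (hd : ∀ (T : ℝ) (z : Fin n → ℤ), z ≠ 0 → 1 ≤ T → γ * T ^ (-τ) ≤ ‖zv z - T • h‖)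
    (hd' : ∀ (T : ℝ) (z : Fin n → ℤ), z ≠ 0 → 0 ≤ T → T ≤ 1 → γ ≤ ‖zv z - T • h‖) :
    ENNReal.ofReal (1 + 2 / (1 + 2 * τ)) ≤ dimH (aubry L c) := by
  have hex : ∀ q : ℕ, ∃ (u : E n → ℝ) (y : ℕ → E n), 0 < q →
      Cal (Sp (Lq q L) c (alpha L c / q)) u y ∧ ∀ i, Aub (Sp L c (alpha L c)) (y i) := by
    intro q
    rcases Nat.eq_zero_or_pos q with h0 | h0
    · exact ⟨0, 0, fun h => absurd h (by omega)⟩
    · obtain ⟨u, y, h1⟩ := exists_cal hL ha h0 c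
      exact ⟨u, y, fun _ => h1⟩
  choose u y hy using hex
  obtain ⟨CL, hCL, hlong⟩ := closing_long hL ha c (alpha L c)
  obtain ⟨CS, hCS, hshort⟩ := closing_short hL c (alpha L c)
  have hC : 0 ≤ max CL CS := hCL.trans (le_max_left _ _)
  have hq' : ∀ p : E n, ‖p‖ ≤ p₀ →
      alpha L (c + p) - alpha L c ≤ ⟪h, p⟫ + max K' 1 * ‖p‖ ^ 2 := by
    intro p hp'
    have h3 := hq p hp'
    have h4 : K' * ‖p‖ ^ 2 ≤ max K' 1 * ‖p‖ ^ 2 :=
      mul_le_mul_of_nonneg_right (le_max_left _ _) (sq_nonneg _)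
    linarith
  obtain ⟨c₁, e₁, C₁, hc₁, he₁, hC₁, hdef⟩ := defect hC hp
    (lt_of_lt_of_le one_pos (le_max_right K' 1)) hγ hτ
    (Q := fun p => alpha L (c + p) - alpha L c) (h := h) hq' hh hd hd'
  have hs : 0 < 2 / (1 + 2 * τ) := by positivity
  -- the dichotomy
  have key : ∀ q, 0 < q → ∀ i j z, i < j → ‖y q i + zv z - y q j‖ ≤ min e₁ 1 →
      ((j - i : ℕ) : ℝ) / q ≤ max C₁ 1 * ‖y q i + zv z - y q j‖ ∨
        c₁ ≤ ((j - i : ℕ) : ℝ) / q * ‖y q i + zv z - y q j‖ ^ (2 / (1 + 2 * τ)) := by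
    intro q hq0 i j z hij hn1
    have hqR : (0 : ℝ) < q := by exact_mod_cast hq0
    have hkR : (0 : ℝ) < ((j - i : ℕ) : ℝ) := by
      have : 0 < j - i := by omega
      exact_mod_cast this
    have hT : 0 < ((j - i : ℕ) : ℝ) / q := by positivity
    have he0 := norm_nonneg (y q i + zv z - y q j)
    obtain ⟨hd1, hd2⟩ := hdef (((j - i : ℕ) : ℝ) / q) ‖y q i + zv z - y q j‖ z hT he0
      (hn1.trans (min_le_left _ _))
    rcases le_or_gt q (j - i) with hle | hlt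
    · right
      refine hd1 ((one_le_div hqR).2 (by exact_mod_cast hle)) fun p => ?_
      refine le_of_forall_pos_le_add fun ε hε => ?_
      obtain ⟨g, hg, hcost⟩ := hlong q hq0 (u q) (y q) (hy q hq0).1 i j z hij hle
        (hn1.trans (min_le_right _ _)) ε hε
      have h5 := twist hL ha hq0 c p hg
      have h6 : CL * ‖y q i + zv z - y q j‖ ^ 2 ≤ max CL CS * ‖y q i + zv z - y q j‖ ^ 2 :=
        mul_le_mul_of_nonneg_right (le_max_left _ _) (sq_nonneg _)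
      linarith
    · left
      have hle' : j - i ≤ q := hlt.le
      have hT1 : ((j - i : ℕ) : ℝ) / q ≤ 1 := (div_le_one hqR).2 (by exact_mod_cast hle')
      rcases le_or_gt ‖y q i + zv z - y q j‖ (((j - i : ℕ) : ℝ) / q) with h7 | h7
      · have h8 := hd2 hT1 h7 (fun p => by
          refine le_of_forall_pos_le_add fun ε hε => ?_
          obtain ⟨g, hg, hcost⟩ := hshort q hq0 (u q) (y q) (hy q hq0).1 i j z hij hle' h7 ε hε
          have h5 := twist hL ha hq0 c p hg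
          have h6 : CS * ‖y q i + zv z - y q j‖ ^ 2 / (((j - i : ℕ) : ℝ) / q) ≤
              max CL CS * ‖y q i + zv z - y q j‖ ^ 2 / (((j - i : ℕ) : ℝ) / q) := by
            gcongr
            exact le_max_right _ _
          linarith)
        exact h8.trans (mul_le_mul_of_nonneg_right (le_max_left _ _) he0)
      · have h9 : ‖y q i + zv z - y q j‖ ≤ max C₁ 1 * ‖y q i + zv z - y q j‖ := by
          have := mul_le_mul_of_nonneg_right (le_max_right C₁ 1) he0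
          linarith
        linarith
  -- the compact set
  obtain ⟨a, b, κ', K'', hS⟩ := pot hL c (alpha L c)
  obtain ⟨u', M, Λ, hu⟩ := exists_sub hS (n1 hL c)
  have hcl : IsCompact (pr '' ({x | Aub (Sp L c (alpha L c)) x} ∩
      Metric.closedBall 0 (Real.sqrt n))) :=
    ((isCompact_closedBall _ _).inter_left (aub_closed hS hu)).image pr_cont
  refine (dimH_ge2 hs hc₁ (lt_of_lt_of_le one_pos (le_max_right C₁ 1))
    (lt_min he₁ one_pos) hn key hcl ?_).trans (dimH_mono ?_)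
  · intro q hq0 i
    obtain ⟨z, hz, -⟩ := exists_near (y q i)
    exact ⟨y q i + zv z, ⟨aub_add hS ((hy q hq0).2 i) z, by simpa using hz⟩,
      (pr_eq_pr.2 ⟨z, rfl⟩).symm⟩
  · rintro _ ⟨w, hw, rfl⟩
    exact aubry_of_aub hL c hw.1

theorem main2 {m : ℕ} (hm : 0 < m) {L : E (m + 1) → E (m + 1) → ℝ → ℝ} {κ K : ℝ}
    (hL : Growth L κ K) (ha : Aut L) (h2 : ContDiff ℝ 2 (alpha L))
    (hpos : ∀ c p, p ≠ 0 → 0 < fderiv ℝ (fderiv ℝ (alpha L)) c p p) :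
    ∀ᵐ c : E (m + 1), ENNReal.ofReal ((3 * m + 2) / (m + 2)) ≤ dimH (aubry L c) := by
  have hm' : (0 : ℝ) < m := by exact_mod_cast hm
  have hP : ∀ᵐ h : E (m + 1), h 0 ≠ 0 ∧ ∀ l : ℕ, ∃ γ : ℝ, 0 < γ ∧ ∀ k : ℕ, 0 < k →
      ∀ z : Fin m → ℤ, γ * (k : ℝ) ^ (-(1 / (m : ℝ) + 1 / ((l : ℝ) + 1))) ≤
        ‖zv z - (k : ℝ) • (WithLp.toLp 2 (fun l : Fin m => h l.succ / h 0) : E m)‖ := by
    refine ae_ratio (P := fun h' : E m => ∀ l : ℕ, ∃ γ : ℝ, 0 < γ ∧ ∀ k : ℕ, 0 < k →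
      ∀ z : Fin m → ℤ, γ * (k : ℝ) ^ (-(1 / (m : ℝ) + 1 / ((l : ℝ) + 1))) ≤
        ‖zv z - (k : ℝ) • h'‖) ?_
    rw [ae_all_iff]
    intro l
    exact ae_dioph hm (by
      have : (0 : ℝ) < 1 / ((l : ℝ) + 1) := by positivity
      linarith)
  filter_upwards [ae_gradient h2 hpos hP] with c hc
  obtain ⟨hc0, hc⟩ := hc
  obtain ⟨K', hK', hquad⟩ := quad_upper h2 c
  have h3 : ∀ l : ℕ, ENNReal.ofReal (1 + 2 / (1 + 2 * (1 / (m : ℝ) + 1 / ((l : ℝ) + 1)))) ≤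
      dimH (aubry L c) := by
    intro l
    obtain ⟨γ', hγ', hd⟩ := hc l
    obtain ⟨γ, hγ, hh, hd1, hd2⟩ := flow_of_dioph (by positivity) hγ' hc0 hd
    refine main1 hL ha (Nat.succ_pos m) one_pos hγ (by positivity) (h := gradient (alpha L) c)
      (K' := K') ?_ hh hd1 hd2
    intro p hp
    have := hquad p hp
    linarith
  refine le_of_tendsto' (f := fun l : ℕ =>
    ENNReal.ofReal (1 + 2 / (1 + 2 * (1 / (m : ℝ) + 1 / ((l : ℝ) + 1))))) (x := atTop) ?_ h3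
  refine ENNReal.tendsto_ofReal ?_
  have h4 : ((3 * m + 2) / (m + 2) : ℝ) = 1 + 2 / (1 + 2 * (1 / (m : ℝ) + 0)) := by
    field_simp
    ring
  rw [h4]
  have h5 : Tendsto (fun l : ℕ => 1 / ((l : ℝ) + 1)) atTop (nhds 0) :=
    tendsto_one_div_add_atTop_nhds_zero_nat
  refine tendsto_const_nhds.add (Tendsto.div tendsto_const_nhds ?_ (by positivity))
  exact tendsto_const_nhds.add (tendsto_const_nhds.mul (tendsto_const_nhds.add h5))

end Pool.Agent.H68.HDA
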