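import Pool.Agent.H68.HDA.Main
import Pool.Agent.H99.EC.Tay

/-!
# Quadratic bounds at single points

The set of the `c` at which `f` is at least `f(c) + h · p + κ' |p|²` near `c`: there the map `c ↦ h` has a locally
Lipschitz inverse, so preimages of null sets are null.
-/

set_option autoImplicit false

open MeasureTheory Filter Measure
open scoped RealInnerProductSpace NNReal ENNReal

namespace Pool.Agent.H68.HDA

open Pool.Agent.H33.AM (E Tor pr IsPeriodic)
open Pool.Agent.H68.HD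

variable {n : ℕ}

private theorem volume_null_of_hausdorff {s : Set (E n)} (h : μH[(n : ℝ)] s = 0) : volume s = 0 := by
  have h1 : IsAddHaarMeasure (μH[(n : ℝ)] : Measure (E n)) := by
    simpa using MeasureTheory.isAddHaarMeasure_hausdorffMeasure (E := E n)
  exact (absolutelyContinuous_isAddHaarMeasure (volume : Measure (E n)) μH[(n : ℝ)]) h

private theorem hausdorff_null_of_volume {s : Set (E n)} (h : volume s = 0) : μH[(n : ℝ)] s = 0 := by
  have h1 : IsAddHaarMeasure (μH[(n : ℝ)] : Measure (E n)) := by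
    simpa using MeasureTheory.isAddHaarMeasure_hausdorffMeasure (E := E n)
  exact (absolutelyContinuous_isAddHaarMeasure (μH[(n : ℝ)] : Measure (E n)) volume) h

private def Low (f : E n → ℝ) (c h : E n) (δ : ℝ) : Prop :=
  ∀ p : E n, ‖p‖ ≤ δ → δ * ‖p‖ ^ 2 ≤ f (c + p) - f c - ⟪h, p⟫

private theorem low_dist {f : E n → ℝ} {c c' h h' : E n} {δ : ℝ} (hδ : 0 < δ) (h1 : Low f c h δ)
    (h2 : Low f c' h' δ) (hd : ‖c' - c‖ ≤ δ) : ‖c' - c‖ ≤ (2 * δ)⁻¹ * ‖h' - h‖ := by
  have h3 := h1 (c' - c) hd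
  have h4 := h2 (c - c') (by rwa [norm_sub_rev])
  rw [add_sub_cancel] at h3 h4
  rw [norm_sub_rev c c'] at h4
  have h5 : ⟪h', c - c'⟫ = - ⟪h', c' - c⟫ := by
    rw [← inner_neg_right, neg_sub]
  have h6 : ⟪h' - h, c' - c⟫ = ⟪h', c' - c⟫ - ⟪h, c' - c⟫ := inner_sub_left _ _ _
  have h7 : ⟪h' - h, c' - c⟫ ≤ ‖h' - h‖ * ‖c' - c‖ := real_inner_le_norm _ _
  have h8 : 2 * δ * ‖c' - c‖ ^ 2 ≤ ‖h' - h‖ * ‖c' - c‖ := by
    rw [h5] at h4
    linarith
  rw [← div_eq_inv_mul, le_div_iff₀ (by positivity)]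
  rcases (norm_nonneg (c' - c)).eq_or_lt with h9 | h9
  · rw [← h9]
    simp
  · by_contra h10
    push Not at h10
    have := mul_lt_mul_of_pos_right h10 h9
    nlinarith

theorem ae_pin {f : E n → ℝ} {P : E n → Prop} (hP : ∀ᵐ h : E n, P h) :
    ∀ᵐ c : E n, ∀ (h : E n) (κ' p₀ : ℝ), 0 < κ' → 0 < p₀ →
      (∀ p : E n, ‖p‖ ≤ p₀ → κ' * ‖p‖ ^ 2 ≤ f (c + p) - f c - ⟪h, p⟫) → P h := by
  set B : ℕ → ℕ → Set (E n) := fun m k =>
    {c | dist c (TopologicalSpace.denseSeq (E n) k) < 1 / (2 * ((m : ℝ) + 1)) ∧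
      ∃ h, Low f c h (1 / ((m : ℝ) + 1)) ∧ ¬ P h} with hB
  have hnull : ∀ m k, volume (B m k) = 0 := by
    intro m k
    have hm : (0 : ℝ) < 1 / ((m : ℝ) + 1) := by positivity
    have hex : ∀ c : E n, ∃ h, c ∈ B m k → Low f c h (1 / ((m : ℝ) + 1)) ∧ ¬ P h := by
      intro c
      by_cases hc : c ∈ B m k
      · obtain ⟨h, hh⟩ := hc.2
        exact ⟨h, fun _ => hh⟩
      · exact ⟨0, fun h => absurd h hc⟩
    choose H hH using hex
    set C : ℝ := (2 * (1 / ((m : ℝ) + 1)))⁻¹ with hC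
    have hC0 : 0 ≤ C := by positivity
    have hd : ∀ c ∈ B m k, ∀ c' ∈ B m k, ‖c' - c‖ ≤ C * ‖H c' - H c‖ := by
      intro c hc c' hc'
      refine low_dist hm (hH c hc).1 (hH c' hc').1 ?_
      have h1 := hc.1
      have h2 := hc'.1
      rw [← dist_eq_norm]
      have h3 := dist_triangle_right c' c (TopologicalSpace.denseSeq (E n) k)
      have h4 : 1 / (2 * ((m : ℝ) + 1)) + 1 / (2 * ((m : ℝ) + 1)) = 1 / ((m : ℝ) + 1) := by
        field_simp
        norm_num
      linarith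
    set g : E n → E n := Function.invFunOn H (B m k) with hg
    have hg1 : ∀ y ∈ H '' B m k, g y ∈ B m k := fun y hy => Function.invFunOn_mem hy
    have hg2 : ∀ y ∈ H '' B m k, H (g y) = y := fun y hy => Function.invFunOn_eq hy
    have hlip : LipschitzOnWith (Real.toNNReal C) g (H '' B m k) := by
      refine LipschitzOnWith.of_dist_le_mul fun y hy y' hy' => ?_
      rw [dist_eq_norm, dist_eq_norm, Real.coe_toNNReal _ hC0]
      have h1 := hd (g y') (hg1 y' hy') (g y) (hg1 y hy)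
      rw [hg2 y hy, hg2 y' hy'] at h1
      exact h1
    have himg : B m k ⊆ g '' (H '' B m k) := by
      intro c hc
      have hmem : H c ∈ H '' B m k := Set.mem_image_of_mem _ hc
      refine ⟨H c, hmem, ?_⟩
      have h1 := hd (g (H c)) (hg1 _ hmem) c hc
      rw [hg2 _ hmem, sub_self, norm_zero, mul_zero] at h1
      have h2 : c - g (H c) = 0 := norm_le_zero_iff.1 h1
      exact (sub_eq_zero.1 h2).symm
    have h0 : volume (H '' B m k) = 0 := by
      refine measure_mono_null ?_ (ae_iff.1 hP)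
      rintro _ ⟨c, hc, rfl⟩
      exact (hH c hc).2
    have h1 := hlip.hausdorffMeasure_image_le (d := (n : ℝ)) (Nat.cast_nonneg n)
    rw [hausdorff_null_of_volume h0, mul_zero] at h1
    exact volume_null_of_hausdorff (measure_mono_null himg (le_antisymm h1 bot_le))
  rw [ae_iff]
  refine measure_mono_null ?_ (measure_iUnion_null fun m => measure_iUnion_null fun k => hnull m k)
  intro c hc
  rw [Set.mem_setOf_eq] at hc
  push Not at hc
  obtain ⟨h, κ', p₀, hκ', hp₀, hlow, hPh⟩ := hc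
  obtain ⟨m, hm⟩ := exists_nat_one_div_lt (lt_min hκ' hp₀)
  obtain ⟨k, hk⟩ := (TopologicalSpace.denseRange_denseSeq (E n)).exists_dist_lt c
    (ε := 1 / (2 * ((m : ℝ) + 1))) (by positivity)
  refine Set.mem_iUnion.2 ⟨m, Set.mem_iUnion.2 ⟨k, hk, h, fun p hp => ?_, hPh⟩⟩
  have h1 : 1 / ((m : ℝ) + 1) ≤ κ' := (hm.trans_le (min_le_left _ _)).le
  have h2 : 1 / ((m : ℝ) + 1) ≤ p₀ := (hm.trans_le (min_le_right _ _)).le
  exact (mul_le_mul_of_nonneg_right h1 (sq_nonneg _)).trans (hlow p (hp.trans h2))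

end Pool.Agent.H68.HDA
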