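import Pool.Agent.H68.HDA.Pin

/-!
# The lower bounds for almost every `c` with two-sided quadratic bounds of `α` at `c`
-/

set_option autoImplicit false

open MeasureTheory Filter
open scoped RealInnerProductSpace

namespace Pool.Agent.H68.HDA

open Pool.Agent.H33.AM (E Tor pr IsPeriodic)
open Pool.Agent.H68.HD

/-- At `c` the function `f` has two-sided quadratic bounds. -/
def Pinched {n : ℕ} (f : E n → ℝ) (c : E n) : Prop :=
  ∃ (h : E n) (κ' K' p₀ : ℝ), 0 < κ' ∧ 0 < p₀ ∧ ∀ p : E n, ‖p‖ ≤ p₀ →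
    κ' * ‖p‖ ^ 2 ≤ f (c + p) - f c - ⟪h, p⟫ ∧ f (c + p) - f c - ⟪h, p⟫ ≤ K' * ‖p‖ ^ 2

theorem pinched_of_c2 {n : ℕ} {f : E n → ℝ} (h2 : ContDiff ℝ 2 f) (c : E n)
    (hpos : ∀ p, p ≠ 0 → 0 < fderiv ℝ (fderiv ℝ f) c p p) : Pinched f c := by
  obtain ⟨κ', p₀, hκ', hp₀, hlow⟩ := Pool.Agent.H99.EC.quad_lower h2 c hpos
  obtain ⟨K', hK', hup⟩ := quad_upper h2 c
  refine ⟨gradient f c, κ', K', min p₀ 1, hκ', lt_min hp₀ one_pos, fun p hp => ⟨?_, ?_⟩⟩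
  · exact hlow p (hp.trans (min_le_left _ _))
  · have := hup p (hp.trans (min_le_right _ _))
    linarith

theorem pin_main {n : ℕ} {L : E n → E n → ℝ → ℝ} {κ K : ℝ} (hL : Growth L κ K) :
    ∀ᵐ c : E n, Pinched (alpha L) c → ENNReal.ofReal (2 * n / (n + 2)) ≤ dimH (aubry L c) := by
  rcases Nat.eq_zero_or_pos n with hn | hn
  · refine Filter.Eventually.of_forall fun c _ => ?_
    subst hn
    simp
  have hn' : (0 : ℝ) < n := by exact_mod_cast hn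
  have hP : ∀ᵐ h : E n, ∀ m : ℕ, ∃ γ : ℝ, 0 < γ ∧ ∀ k : ℕ, 0 < k → ∀ z : Fin n → ℤ,
      γ * (k : ℝ) ^ (-(1 / (n : ℝ) + 1 / ((m : ℝ) + 1))) ≤ ‖zv z - (k : ℝ) • h‖ := by
    rw [ae_all_iff]
    intro m
    exact ae_dioph hn (by
      have : (0 : ℝ) < 1 / ((m : ℝ) + 1) := by positivity
      linarith)
  filter_upwards [ae_pin (f := alpha L) hP] with c hc hpin
  obtain ⟨h, κ', K', p₀, hκ', hp₀, hq⟩ := hpin
  have hc := hc h κ' p₀ hκ' hp₀ fun p hp => (hq p hp).1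
  have h3 : ∀ m : ℕ, ENNReal.ofReal (2 / (1 + 2 * (1 / (n : ℝ) + 1 / ((m : ℝ) + 1)))) ≤
      dimH (aubry L c) := by
    intro m
    obtain ⟨γ, hγ, hd⟩ := hc m
    refine HD.main1 hL hp₀ hγ (by positivity) (h := h) (K' := K') ?_ hd
    intro p hp
    have := (hq p hp).2
    linarith
  refine le_of_tendsto' (f := fun m : ℕ =>
    ENNReal.ofReal (2 / (1 + 2 * (1 / (n : ℝ) + 1 / ((m : ℝ) + 1))))) (x := atTop) ?_ h3
  refine ENNReal.tendsto_ofReal ?_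
  have h4 : (2 * n / (n + 2) : ℝ) = 2 / (1 + 2 * (1 / (n : ℝ) + 0)) := by
    field_simp
    ring
  rw [h4]
  have h5 : Tendsto (fun m : ℕ => 1 / ((m : ℝ) + 1)) atTop (nhds 0) :=
    tendsto_one_div_add_atTop_nhds_zero_nat
  refine Tendsto.div tendsto_const_nhds ?_ (by positivity)
  exact tendsto_const_nhds.add (tendsto_const_nhds.mul (tendsto_const_nhds.add h5))

theorem pin_main_aut {m : ℕ} (hm : 0 < m) {L : E (m + 1) → E (m + 1) → ℝ → ℝ} {κ K : ℝ}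
    (hL : Growth L κ K) (ha : Aut L) :
    ∀ᵐ c : E (m + 1), Pinched (alpha L) c →
      ENNReal.ofReal ((3 * m + 2) / (m + 2)) ≤ dimH (aubry L c) := by
  have hm' : (0 : ℝ) < m := by exact_mod_cast hm
  have hP : ∀ᵐ h : E (m + 1), h 0 ≠ 0 ∧ ∀ l : ℕ, ∃ γ : ℝ, 0 < γ ∧ ∀ k : ℕ, 0 < k →
      ∀ z : Fin m → ℤ, γ * (k : ℝ) ^ (-(1 / (m : ℝ) + 1 / ((l : ℝ) + 1))) ≤
        ‖zv z - (k : ℝ) • (WithLp.toLp 2 (fun l : Fin m => h l.succ / h 0) : E m)‖ := by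
    refine ae_ratio (P := fun h' : E m => ∀ l : ℕ, ∃ γ : ℝ, 0 < γ ∧ ∀ k : ℕ, 0 < k →
      ∀ z : Fin m → ℤ, γ * (k : ℝ) ^ (-(1 / (m : ℝ) + 1 / ((l : ℝ) + 1))) ≤
        ‖zv z - (k : ℝ) • h'‖) ?_
    rw [ae_all_iff]
    intro l
    exact ae_dioph hm (by
      have : (0 : ℝ) < 1 / ((l : ℝ) + 1) := by positivity
      linarith)
  filter_upwards [ae_pin (f := alpha L) hP] with c hc hpin
  obtain ⟨h, κ', K', p₀, hκ', hp₀, hq⟩ := hpin
  obtain ⟨hc0, hc⟩ := hc h κ' p₀ hκ' hp₀ fun p hp => (hq p hp).1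
  have h3 : ∀ l : ℕ, ENNReal.ofReal (1 + 2 / (1 + 2 * (1 / (m : ℝ) + 1 / ((l : ℝ) + 1)))) ≤
      dimH (aubry L c) := by
    intro l
    obtain ⟨γ', hγ', hd⟩ := hc l
    obtain ⟨γ, hγ, hh, hd1, hd2⟩ := flow_of_dioph (by positivity) hγ' hc0 hd
    refine main1 hL ha (Nat.succ_pos m) hp₀ hγ (by positivity) (h := h)
      (K' := K') ?_ hh hd1 hd2
    intro p hp
    have := (hq p hp).2
    linarith
  refine le_of_tendsto' (f := fun l : ℕ =>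
    ENNReal.ofReal (1 + 2 / (1 + 2 * (1 / (m : ℝ) + 1 / ((l : ℝ) + 1))))) (x := atTop) ?_ h3
  refine ENNReal.tendsto_ofReal ?_
  have h4 : ((3 * m + 2) / (m + 2) : ℝ) = 1 + 2 / (1 + 2 * (1 / (m : ℝ) + 0)) := by
    field_simp
    ring
  rw [h4]
  have h5 : Tendsto (fun m : ℕ => 1 / ((m : ℝ) + 1)) atTop (nhds 0) :=
    tendsto_one_div_add_atTop_nhds_zero_nat
  refine tendsto_const_nhds.add (Tendsto.div tendsto_const_nhds ?_ (by positivity))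
  exact tendsto_const_nhds.add (tendsto_const_nhds.mul (tendsto_const_nhds.add h5))

end Pool.Agent.H68.HDA
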